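import Mathlib

/-!
Definitions used by the statement of MP_462b8b_an.NavierCone.
-/

open MeasureTheory InnerProductSpace Laplacian Filter Topology

open scoped ContDiff

namespace Pool.H49.MV.NavierCone

/-- `ℝⁿ` with its Euclidean norm. -/
abbrev E (n : ℕ) := EuclideanSpace ℝ (Fin n)

/-- The critical exponent `2** = 2n/(n-4)`. -/
noncomputable def critExp (n : ℕ) : ℝ := 2 * n / (n - 4)

/-- The open cone `{r σ : r > 0, σ ∈ S}` over a subset `S` of the unit sphere. -/
def cone {n : ℕ} (S : Set (E n)) : Set (E n) := {x | ∃ r : ℝ, 0 < r ∧ ∃ σ ∈ S, x = r • σ}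

/-- The quotient `∫_C |Δu|² / (∫_C |u|^{2**})^{2/2**}`. -/
noncomputable def quot (n : ℕ) (C : Set (E n)) (u : E n → ℝ) : ℝ :=
  (∫ x in C, (Δ u x) ^ 2) / (∫ x in C, |u x| ^ critExp n) ^ (2 / critExp n)

/-- The Navier-type class: the nonzero functions `u ∈ C²(closure of C)` with `u = 0` on the
boundary of `C`, `u = 0` near the origin and `u = 0` near infinity. -/
def NavierClass (n : ℕ) (C : Set (E n)) : Set (E n → ℝ) :=
  {u | ContDiffOn ℝ 2 u (closure C) ∧ (∀ x ∈ frontier C, u x = 0) ∧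
    (∃ r : ℝ, 0 < r ∧ ∀ x ∈ closure C, ‖x‖ < r → u x = 0) ∧
    (∃ R : ℝ, ∀ x ∈ closure C, R < ‖x‖ → u x = 0) ∧ ∃ x ∈ C, u x ≠ 0}

/-- The Navier-type constant of `C`: the infimum of the quotient over the Navier-type class. -/
noncomputable def navierConst (n : ℕ) (C : Set (E n)) : ℝ := sInf (quot n C '' NavierClass n C)

/-- The elements of `D²(ℝⁿ)`, the completion of the smooth compactly supported functions for
the norm `‖Δφ‖` in `L²`: by Sobolev's inequality an element of the completion is a function `v`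
in `L^{2**}` with Laplacian `g` in `L²` for which some test functions `φ k` satisfy
`φ k → v` in `L^{2**}` and `Δ (φ k) → g` in `L²`. -/
def IsD2 (n : ℕ) (v g : E n → ℝ) : Prop :=
  MemLp v (ENNReal.ofReal (critExp n)) volume ∧ MemLp g 2 volume ∧
  ∃ φ : ℕ → E n → ℝ, (∀ k, ContDiff ℝ ∞ (φ k) ∧ HasCompactSupport (φ k)) ∧
    Tendsto (fun k => eLpNorm (φ k - v) (ENNReal.ofReal (critExp n)) volume) atTop (𝓝 0) ∧
    Tendsto (fun k => eLpNorm (Δ (φ k) - g) 2 volume) atTop (𝓝 0)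

/-- The whole-space constant `S**`: the infimum over nonzero `v ∈ D²(ℝⁿ)` (with Laplacian `g`)
of `∫ |Δv|² / (∫ |v|^{2**})^{2/2**}`. -/
noncomputable def Sstar (n : ℕ) : ℝ :=
  sInf {q : ℝ | ∃ v g : E n → ℝ, IsD2 n v g ∧ ¬ (v =ᵐ[volume] 0) ∧
    q = (∫ x, g x ^ 2) / (∫ x, |v x| ^ critExp n) ^ (2 / critExp n)}

end Pool.H49.MV.NavierCone
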