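import Mathlib
import Pool.Agent.H49.MV.NavierConeDefs

/-!
The proof of MP_462b8b_an.NavierCone.
-/

open MeasureTheory InnerProductSpace Laplacian Filter Topology

open scoped ContDiff

namespace Pool.H49.MV.NavierCone

noncomputable abbrev bas (n : ℕ) (i : Fin n) : E n := EuclideanSpace.basisFun (Fin n) ℝ i

lemma lap_eq {n : ℕ} (f : E n → ℝ) (x : E n) (hf : ContDiffAt ℝ 2 f x) :
    Δ f x = ∑ i, fderiv ℝ (fun y => fderiv ℝ f y (bas n i)) x (bas n i) := by
  rw [laplacian_eq_iteratedFDeriv_orthonormalBasis f (EuclideanSpace.basisFun (Fin n) ℝ)]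
  simp only
  refine Finset.sum_congr rfl fun i _ => ?_
  rw [iteratedFDeriv_two_apply]
  have hd : DifferentiableAt ℝ (fderiv ℝ f) x :=
    (hf.fderiv_right (m := 1) (by norm_num)).differentiableAt (by norm_num)
  have h := fderiv_clm_apply (𝕜 := ℝ) hd (differentiableAt_const (bas n i))
  rw [h]
  simp

lemma fderiv_radial {n : ℕ} (F : ℝ → ℝ) (z e : E n) (hF : DifferentiableAt ℝ F (‖z‖ ^ 2)) :
    fderiv ℝ (fun y : E n => F (‖y‖ ^ 2)) z e = 2 * deriv F (‖z‖ ^ 2) * inner ℝ z e := by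
  have h1 : HasFDerivAt (fun y : E n => ‖y‖ ^ 2) (2 • (innerSL ℝ z)) z := by
    exact (hasStrictFDerivAt_norm_sq z).hasFDerivAt
  have h2 := hF.hasDerivAt.comp_hasFDerivAt z h1
  have h3 := h2.fderiv
  have : (F ∘ fun y : E n => ‖y‖ ^ 2) = fun y : E n => F (‖y‖ ^ 2) := rfl
  rw [this] at h3
  rw [h3]
  simp
  ring

lemma lap_radial {n : ℕ} (F : ℝ → ℝ) (hF : ∀ s : ℝ, 0 ≤ s → ContDiffAt ℝ 2 F s) (z : E n) :
    Δ (fun y : E n => F (‖y‖ ^ 2)) z
      = 4 * ‖z‖ ^ 2 * deriv (deriv F) (‖z‖ ^ 2) + 2 * n * deriv F (‖z‖ ^ 2) := by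
  have hcd : ContDiffAt ℝ 2 (fun y : E n => F (‖y‖ ^ 2)) z := by
    have h1 : ContDiffAt ℝ 2 (fun y : E n => ‖y‖ ^ 2) z := (contDiff_norm_sq ℝ).contDiffAt
    exact (hF _ (by positivity)).comp z h1
  rw [lap_eq _ _ hcd]
  have hd : ∀ s : ℝ, 0 ≤ s → DifferentiableAt ℝ F s := fun s hs =>
    (hF s hs).differentiableAt (by norm_num)
  have hdd : DifferentiableAt ℝ (deriv F) (‖z‖ ^ 2) := by
    have h := (hF (‖z‖ ^ 2) (by positivity))
    have h2 : ContDiffAt ℝ 1 (fderiv ℝ F) (‖z‖ ^ 2) := h.fderiv_right (m := 1) (by norm_num)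
    have h3 : DifferentiableAt ℝ (fderiv ℝ F) (‖z‖ ^ 2) := h2.differentiableAt (by norm_num)
    have h4 : deriv F = fun s => fderiv ℝ F s 1 := by
      ext s; simp
    rw [h4]
    exact h3.clm_apply (differentiableAt_const _)
  have key : ∀ i : Fin n, fderiv ℝ (fun y => fderiv ℝ (fun y : E n => F (‖y‖ ^ 2)) y (bas n i)) z (bas n i)
      = 4 * deriv (deriv F) (‖z‖ ^ 2) * (inner ℝ z (bas n i)) ^ 2 + 2 * deriv F (‖z‖ ^ 2) := by
    intro i
    have e1 : (fun y => fderiv ℝ (fun y : E n => F (‖y‖ ^ 2)) y (bas n i))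
        = fun y : E n => 2 * deriv F (‖y‖ ^ 2) * inner ℝ y (bas n i) := by
      ext y
      exact fderiv_radial F y (bas n i) (hd _ (by positivity))
    rw [e1]
    have h1 : HasFDerivAt (fun y : E n => ‖y‖ ^ 2) (2 • (innerSL ℝ z)) z :=
      (hasStrictFDerivAt_norm_sq z).hasFDerivAt
    have h2 : HasFDerivAt (fun y : E n => deriv F (‖y‖ ^ 2))
        (deriv (deriv F) (‖z‖ ^ 2) • (2 • (innerSL ℝ z))) z :=
      HasDerivAt.comp_hasFDerivAt (h₂ := deriv F) z hdd.hasDerivAt h1
    have h3 : HasFDerivAt (fun y : E n => inner ℝ y (bas n i)) ((innerSL ℝ (bas n i))) z := by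
      have := (innerSL ℝ (bas n i)).hasFDerivAt (x := z)
      refine this.congr_of_eventuallyEq (Eventually.of_forall fun y => ?_)
      simp [real_inner_comm]
    have h4 := (h2.const_mul 2).mul h3
    have h4' : fderiv ℝ (fun y : E n => 2 * deriv F (‖y‖ ^ 2) * inner ℝ y (bas n i)) z = _ := h4.fderiv
    rw [h4']
    have h5 : inner ℝ (bas n i) (bas n i) = (1:ℝ) := by simp
    simp only [_root_.add_apply, _root_.smul_apply, innerSL_apply_apply,
      smul_eq_mul, nsmul_eq_mul]
    rw [h5]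
    push_cast
    ring
  rw [Finset.sum_congr rfl fun i _ => key i, Finset.sum_add_distrib, ← Finset.mul_sum]
  have hs : ∑ i : Fin n, (inner ℝ z (bas n i)) ^ 2 = ‖z‖ ^ 2 := by
    have := OrthonormalBasis.sum_sq_norm_inner_left (EuclideanSpace.basisFun (Fin n) ℝ) z
    simpa using this
  rw [hs]
  simp
  ring

lemma conv_fderiv {n : ℕ} (g φ : E n → ℝ) (hg : LocallyIntegrable g) (hφ : ContDiff ℝ 1 φ)
    (hc : HasCompactSupport φ) (x e : E n) :
    fderiv ℝ (convolution g φ (ContinuousLinearMap.mul ℝ ℝ) volume) x e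
      = convolution g (fun z => fderiv ℝ φ z e) (ContinuousLinearMap.mul ℝ ℝ) volume x := by
  have h := hc.hasFDerivAt_convolution_right (ContinuousLinearMap.mul ℝ ℝ) hg hφ x
  rw [h.fderiv]
  exact convolution_precompR_apply _ hg (hc.fderiv ℝ) (hφ.continuous_fderiv (by norm_num)) x e

lemma conv_lap {n : ℕ} (g φ : E n → ℝ) (hg : LocallyIntegrable g) (hφ : ContDiff ℝ ∞ φ)
    (hc : HasCompactSupport φ) (x : E n) :
    Δ (convolution g φ (ContinuousLinearMap.mul ℝ ℝ) volume) x
      = convolution g (Δ φ) (ContinuousLinearMap.mul ℝ ℝ) volume x := by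
  have hcd : ContDiff ℝ ∞ (convolution g φ (ContinuousLinearMap.mul ℝ ℝ) volume) :=
    hc.contDiff_convolution_right _ hg hφ
  have hcd2 : ContDiff ℝ 2 (convolution g φ (ContinuousLinearMap.mul ℝ ℝ) volume) :=
    (by exact_mod_cast contDiff_infty.1 hcd 2)
  rw [lap_eq _ _ hcd2.contDiffAt]
  have hφ1 : ContDiff ℝ 1 φ := hφ.of_le (by exact_mod_cast le_top)
  have hφ2 : ContDiff ℝ 2 φ := (by exact_mod_cast contDiff_infty.1 hφ 2)
  have e1 : ∀ i, (fun y => fderiv ℝ (convolution g φ (ContinuousLinearMap.mul ℝ ℝ) volume) y (bas n i))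
      = convolution g (fun z => fderiv ℝ φ z (bas n i)) (ContinuousLinearMap.mul ℝ ℝ) volume := by
    intro i; ext y
    exact conv_fderiv g φ hg hφ1 hc y _
  have hcdi : ∀ i, ContDiff ℝ 1 (fun z => fderiv ℝ φ z (bas n i)) := fun i =>
    (hφ2.fderiv_right (m := 1) (by norm_num)).clm_apply contDiff_const
  have hci : ∀ i, HasCompactSupport (fun z => fderiv ℝ φ z (bas n i)) := fun i =>
    hc.fderiv_apply ℝ _
  have e2 : ∀ i, fderiv ℝ (fun y => fderiv ℝ (convolution g φ (ContinuousLinearMap.mul ℝ ℝ) volume) y (bas n i)) x (bas n i)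
      = convolution g (fun z => fderiv ℝ (fun y => fderiv ℝ φ y (bas n i)) z (bas n i)) (ContinuousLinearMap.mul ℝ ℝ) volume x := by
    intro i
    rw [e1 i]
    exact conv_fderiv g _ hg (hcdi i) (hci i) x _
  rw [Finset.sum_congr rfl fun i _ => e2 i]
  have e3 : (Δ φ) = fun z => ∑ i, fderiv ℝ (fun y => fderiv ℝ φ y (bas n i)) z (bas n i) := by
    ext z; exact lap_eq φ z hφ2.contDiffAt
  rw [e3]
  simp only [convolution_def, ContinuousLinearMap.mul_apply']
  rw [← integral_finsetSum]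
  · simp only [Finset.mul_sum]
  · intro i _
    have hc2 : HasCompactSupport (fun z => fderiv ℝ (fun y => fderiv ℝ φ y (bas n i)) z (bas n i)) :=
      (hci i).fderiv_apply ℝ _
    have hcont : Continuous (fun z => fderiv ℝ (fun y => fderiv ℝ φ y (bas n i)) z (bas n i)) :=
      ((hcdi i).continuous_fderiv (by norm_num)).clm_apply continuous_const
    have := hc2.convolutionExists_right (ContinuousLinearMap.mul ℝ ℝ) hg hcont x
    exact this

/-- radial profile -/
noncomputable def G (a e s : ℝ) : ℝ := (s + e ^ 2) ^ (-a)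

noncomputable def H (R s : ℝ) : ℝ := Real.smoothTransition (2 - s / R ^ 2)

noncomputable def F (a e R s : ℝ) : ℝ := G a e s * H R s

lemma G_hasDerivAt (a e s : ℝ) (h : 0 < s + e ^ 2) :
    HasDerivAt (G a e) (-a * (s + e ^ 2) ^ (-a - 1)) s := by
  unfold G
  have h1 : HasDerivAt (fun s : ℝ => s + e ^ 2) 1 s := (hasDerivAt_id s).add_const _
  have h2 := h1.rpow_const (p := -a) (Or.inl h.ne')
  simpa using h2

lemma G_contDiffAt (a e s : ℝ) (h : 0 < s + e ^ 2) : ContDiffAt ℝ ∞ (G a e) s := by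
  unfold G
  exact (contDiffAt_id.add contDiffAt_const).rpow_const_of_ne h.ne'

lemma H_contDiff (R : ℝ) : ContDiff ℝ ∞ (H R) := by
  unfold H
  exact Real.smoothTransition.contDiff.comp (contDiff_const.sub (contDiff_id.div_const _))

lemma F_contDiffAt (a e R s : ℝ) (h : 0 < s + e ^ 2) : ContDiffAt ℝ ∞ (F a e R) s :=
  (G_contDiffAt a e s h).mul (H_contDiff R).contDiffAt

lemma H_diff (R : ℝ) : Differentiable ℝ (H R) := (H_contDiff R).differentiable (by norm_num)

lemma H_diff2 (R : ℝ) : Differentiable ℝ (deriv (H R)) := by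
  have h : ContDiff ℝ 2 (H R) := by exact_mod_cast contDiff_infty.1 (H_contDiff R) 2
  have h2 : ContDiff ℝ (1 + 1) (H R) := by simpa [one_add_one_eq_two] using h
  exact ((contDiff_succ_iff_deriv.1 h2).2.2).differentiable (by norm_num)

lemma F_deriv (a e R s : ℝ) (h : 0 < s + e ^ 2) :
    deriv (F a e R) s = -a * (s + e ^ 2) ^ (-a - 1) * H R s + G a e s * deriv (H R) s := by
  have h1 := (G_hasDerivAt a e s h).mul (H_diff R s).hasDerivAt
  have : deriv (F a e R) s = _ := h1.deriv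
  rw [this]

lemma F_deriv2 (a e R s : ℝ) (h : 0 < s + e ^ 2) :
    deriv (deriv (F a e R)) s = a * (a + 1) * (s + e ^ 2) ^ (-a - 2) * H R s
      + 2 * (-a * (s + e ^ 2) ^ (-a - 1)) * deriv (H R) s + G a e s * deriv (deriv (H R)) s := by
  have hev : deriv (F a e R) =ᶠ[𝓝 s]
      fun s => -a * (s + e ^ 2) ^ (-a - 1) * H R s + G a e s * deriv (H R) s := by
    have : ∀ᶠ t in 𝓝 s, 0 < t + e ^ 2 := by
      have hc : Continuous fun t : ℝ => t + e ^ 2 := by fun_prop
      exact hc.continuousAt.eventually (lt_mem_nhds h)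
    filter_upwards [this] with t ht
    exact F_deriv a e R t ht
  rw [hev.deriv_eq]
  have h0 := G_hasDerivAt (a + 1) e s h
  have h0' : HasDerivAt (fun s : ℝ => -a * (s + e ^ 2) ^ (-a - 1))
      (-a * (-(a + 1) * (s + e ^ 2) ^ (-(a + 1) - 1))) s := by
    have := h0.const_mul (-a)
    refine this.congr_of_eventuallyEq (Eventually.of_forall fun t => ?_)
    simp only [G]
    rw [show -(a + 1) = -a - 1 by ring]
  have h1 := (h0'.mul (H_diff R s).hasDerivAt).add
    ((G_hasDerivAt a e s h).mul (H_diff2 R s).hasDerivAt)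
  have h2 : deriv (fun s => -a * (s + e ^ 2) ^ (-a - 1) * H R s + G a e s * deriv (H R) s) s = _ :=
    h1.deriv
  rw [h2, show -(a + 1) - 1 = -a - 2 by ring]
  ring

noncomputable def rest (n : ℕ) (a e R s : ℝ) : ℝ :=
  4 * s * (2 * (-a * (s + e ^ 2) ^ (-a - 1)) * deriv (H R) s + G a e s * deriv (deriv (H R)) s)
    + 2 * n * G a e s * deriv (H R) s

lemma F_lap (n : ℕ) (a e R s : ℝ) (hn : 2 * (a + 1) = n) (h : 0 < s + e ^ 2) :
    4 * s * deriv (deriv (F a e R)) s + 2 * n * deriv (F a e R) s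
      = -(2 * a * n * e ^ 2 * (H R s * (s + e ^ 2) ^ (-a - 2))) + rest n a e R s := by
  rw [F_deriv2 a e R s h, F_deriv a e R s h, rest]
  have h1 : (s + e ^ 2) ^ (-a - 1) = (s + e ^ 2) ^ (-a - 2) * (s + e ^ 2) := by
    rw [← Real.rpow_add_one h.ne']; congr 1; ring
  rw [h1, ← hn]
  ring

lemma H_eq_one {R s : ℝ} (hR : 0 < R) (h : s ≤ R ^ 2) : H R s = 1 := by
  unfold H
  apply Real.smoothTransition.one_of_one_le
  have : s / R ^ 2 ≤ 1 := by rw [div_le_one (by positivity)]; exact h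
  linarith

lemma H_eq_zero {R s : ℝ} (hR : 0 < R) (h : 2 * R ^ 2 ≤ s) : H R s = 0 := by
  unfold H
  apply Real.smoothTransition.zero_of_nonpos
  have : 2 ≤ s / R ^ 2 := by rw [le_div_iff₀ (by positivity)]; exact h
  linarith

lemma H_nonneg (R s : ℝ) : 0 ≤ H R s := Real.smoothTransition.nonneg _

lemma H_le_one (R s : ℝ) : H R s ≤ 1 := Real.smoothTransition.le_one _

lemma T_bound : ∃ C : ℝ, 0 < C ∧ (∀ x, |deriv Real.smoothTransition x| ≤ C) ∧
    (∀ x, |deriv (deriv Real.smoothTransition) x| ≤ C) ∧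
    (∀ x, x ≤ 0 → deriv Real.smoothTransition x = 0 ∧ deriv (deriv Real.smoothTransition) x = 0) ∧
    (∀ x, 1 ≤ x → deriv Real.smoothTransition x = 0 ∧ deriv (deriv Real.smoothTransition) x = 0) := by
  have hT : ContDiff ℝ ∞ Real.smoothTransition := Real.smoothTransition.contDiff
  have h2 : ContDiff ℝ 2 Real.smoothTransition := by exact_mod_cast contDiff_infty.1 hT 2
  have h2' : ContDiff ℝ (1 + 1) Real.smoothTransition := by simpa [one_add_one_eq_two] using h2
  have h1 : ContDiff ℝ 1 (deriv Real.smoothTransition) := (contDiff_succ_iff_deriv.1 h2').2.2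
  have h1' : ContDiff ℝ (0 + 1) (deriv Real.smoothTransition) := by simpa using h1
  have c1 : Continuous (deriv Real.smoothTransition) := h1.continuous
  have c2 : Continuous (deriv (deriv Real.smoothTransition)) := (contDiff_succ_iff_deriv.1 h1').2.2.continuous
  -- zero on the open rays
  have z1 : ∀ x, x < 0 → deriv Real.smoothTransition x = 0 := by
    intro x hx
    have : Real.smoothTransition =ᶠ[𝓝 x] fun _ => 0 := by
      filter_upwards [gt_mem_nhds hx] with y hy
      exact Real.smoothTransition.zero_of_nonpos hy.le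
    rw [this.deriv_eq]; simp
  have z1' : ∀ x, 1 < x → deriv Real.smoothTransition x = 0 := by
    intro x hx
    have : Real.smoothTransition =ᶠ[𝓝 x] fun _ => 1 := by
      filter_upwards [lt_mem_nhds hx] with y hy
      exact Real.smoothTransition.one_of_one_le hy.le
    rw [this.deriv_eq]; simp
  have z2 : ∀ x, x < 0 → deriv (deriv Real.smoothTransition) x = 0 := by
    intro x hx
    have : deriv Real.smoothTransition =ᶠ[𝓝 x] fun _ => 0 := by
      filter_upwards [gt_mem_nhds hx] with y hy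
      exact z1 y hy
    rw [this.deriv_eq]; simp
  have z2' : ∀ x, 1 < x → deriv (deriv Real.smoothTransition) x = 0 := by
    intro x hx
    have : deriv Real.smoothTransition =ᶠ[𝓝 x] fun _ => 0 := by
      filter_upwards [lt_mem_nhds hx] with y hy
      exact z1' y hy
    rw [this.deriv_eq]; simp
  have ext0 : ∀ f : ℝ → ℝ, Continuous f → (∀ x, x < 0 → f x = 0) → f 0 = 0 := by
    intro f hf h0
    have : Tendsto f (𝓝[<] 0) (𝓝 (f 0)) := hf.continuousAt.tendsto.mono_left nhdsWithin_le_nhds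
    have h' : Tendsto f (𝓝[<] 0) (𝓝 0) := by
      refine Tendsto.congr' ?_ tendsto_const_nhds
      filter_upwards [self_mem_nhdsWithin] with x hx using (h0 x hx).symm
    exact tendsto_nhds_unique this h'
  have ext1 : ∀ f : ℝ → ℝ, Continuous f → (∀ x, 1 < x → f x = 0) → f 1 = 0 := by
    intro f hf h0
    have : Tendsto f (𝓝[>] 1) (𝓝 (f 1)) := hf.continuousAt.tendsto.mono_left nhdsWithin_le_nhds
    have h' : Tendsto f (𝓝[>] 1) (𝓝 0) := by
      refine Tendsto.congr' ?_ tendsto_const_nhds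
      filter_upwards [self_mem_nhdsWithin] with x hx using (h0 x hx).symm
    exact tendsto_nhds_unique this h'
  have w1 : ∀ x, x ≤ 0 → deriv Real.smoothTransition x = 0 := fun x hx => by
    rcases hx.lt_or_eq with h | h
    · exact z1 x h
    · rw [h]; exact ext0 _ c1 z1
  have w2 : ∀ x, x ≤ 0 → deriv (deriv Real.smoothTransition) x = 0 := fun x hx => by
    rcases hx.lt_or_eq with h | h
    · exact z2 x h
    · rw [h]; exact ext0 _ c2 z2
  have w1' : ∀ x, 1 ≤ x → deriv Real.smoothTransition x = 0 := fun x hx => by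
    rcases hx.lt_or_eq with h | h
    · exact z1' x h
    · rw [← h]; exact ext1 _ c1 z1'
  have w2' : ∀ x, 1 ≤ x → deriv (deriv Real.smoothTransition) x = 0 := fun x hx => by
    rcases hx.lt_or_eq with h | h
    · exact z2' x h
    · rw [← h]; exact ext1 _ c2 z2'
  obtain ⟨C1, hC1⟩ := isCompact_Icc.exists_bound_of_continuousOn (s := Set.Icc (0:ℝ) 1) c1.continuousOn
  obtain ⟨C2, hC2⟩ := isCompact_Icc.exists_bound_of_continuousOn (s := Set.Icc (0:ℝ) 1) c2.continuousOn
  have p1 : 0 ≤ C1 := (norm_nonneg _).trans (hC1 0 (by simp))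
  have p2 : 0 ≤ C2 := (norm_nonneg _).trans (hC2 0 (by simp))
  refine ⟨C1 + C2 + 1, by positivity, ?_, ?_, fun x hx => ⟨w1 x hx, w2 x hx⟩,
    fun x hx => ⟨w1' x hx, w2' x hx⟩⟩
  · intro x
    by_cases h0 : x ≤ 0
    · rw [w1 x h0]; simp; positivity
    · by_cases h1 : 1 ≤ x
      · rw [w1' x h1]; simp; positivity
      · push Not at h0 h1
        have := hC1 x ⟨h0.le, h1.le⟩
        rw [Real.norm_eq_abs] at this
        linarith
  · intro x
    by_cases h0 : x ≤ 0
    · rw [w2 x h0]; simp; positivity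
    · by_cases h1 : 1 ≤ x
      · rw [w2' x h1]; simp; positivity
      · push Not at h0 h1
        have := hC2 x ⟨h0.le, h1.le⟩
        rw [Real.norm_eq_abs] at this
        linarith

lemma H_deriv (R s : ℝ) : deriv (H R) s = -(deriv Real.smoothTransition (2 - s / R ^ 2)) / R ^ 2 := by
  have hT : Differentiable ℝ Real.smoothTransition :=
    Real.smoothTransition.contDiff.differentiable (n := 1) (by norm_num)
  have h1 : HasDerivAt (fun s : ℝ => 2 - s / R ^ 2) (-(1 / R ^ 2)) s := by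
    have := ((hasDerivAt_id s).div_const (R ^ 2)).const_sub 2
    simpa using this
  have h2 := HasDerivAt.comp s (hT _).hasDerivAt h1
  have : deriv (H R) s = _ := h2.deriv
  rw [this]; ring

lemma H_deriv2 (R s : ℝ) :
    deriv (deriv (H R)) s = (deriv (deriv Real.smoothTransition) (2 - s / R ^ 2)) / R ^ 4 := by
  have h2 : ContDiff ℝ 2 Real.smoothTransition := Real.smoothTransition.contDiff
  have h2' : ContDiff ℝ (1 + 1) Real.smoothTransition := by simpa [one_add_one_eq_two] using h2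
  have hT : Differentiable ℝ (deriv Real.smoothTransition) :=
    ((contDiff_succ_iff_deriv.1 h2').2.2).differentiable (by norm_num)
  have e : deriv (H R) = fun s => -(deriv Real.smoothTransition (2 - s / R ^ 2)) / R ^ 2 := by
    ext s; exact H_deriv R s
  rw [e]
  have h1 : HasDerivAt (fun s : ℝ => 2 - s / R ^ 2) (-(1 / R ^ 2)) s := by
    have := ((hasDerivAt_id s).div_const (R ^ 2)).const_sub 2
    simpa using this
  have h3 := ((HasDerivAt.comp s (hT _).hasDerivAt h1).neg).div_const (R ^ 2)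
  have h4 : deriv (fun s => -(deriv Real.smoothTransition (2 - s / R ^ 2)) / R ^ 2) s = _ := h3.deriv
  rw [h4]
  field_simp

/-- the remainder vanishes near the origin and is uniformly small -/
lemma rest_bound (n : ℕ) (a : ℝ) (ha : 0 ≤ a) (hn : 2 * (a + 1) = n) :
    ∃ C : ℝ, 0 < C ∧ ∀ e R s : ℝ, 0 < R → 0 ≤ s →
      (s ≤ R ^ 2 → rest n a e R s = 0) ∧ (2 * R ^ 2 ≤ s → rest n a e R s = 0) ∧
      |rest n a e R s| ≤ C * R⁻¹ ^ n := by
  obtain ⟨C, hC, hb1, hb2, hz0, hz1⟩ := T_bound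
  refine ⟨C * (16 * a + 8 + 2 * n), by positivity, fun e R s hR hs => ?_⟩
  have Z1 : s ≤ R ^ 2 → rest n a e R s = 0 := by
    intro h
    have h1 : 1 ≤ 2 - s / R ^ 2 := by
      have : s / R ^ 2 ≤ 1 := by rw [div_le_one (by positivity)]; exact h
      linarith
    rw [rest, H_deriv, H_deriv2, (hz1 _ h1).1, (hz1 _ h1).2]; simp
  have Z2 : 2 * R ^ 2 ≤ s → rest n a e R s = 0 := by
    intro h
    have h1 : 2 - s / R ^ 2 ≤ 0 := by
      have : 2 ≤ s / R ^ 2 := by rw [le_div_iff₀ (by positivity)]; exact h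
      linarith
    rw [rest, H_deriv, H_deriv2, (hz0 _ h1).1, (hz0 _ h1).2]; simp
  refine ⟨Z1, Z2, ?_⟩
  by_cases c1 : s ≤ R ^ 2
  · rw [Z1 c1]; simp; positivity
  by_cases c2 : 2 * R ^ 2 ≤ s
  · rw [Z2 c2]; simp; positivity
  push Not at c1 c2
  have hRinv : 0 < R⁻¹ := by positivity
  have hR2 : (0:ℝ) < R ^ 2 := by positivity
  have hs0 : 0 < s := lt_trans hR2 c1
  -- bounds on G and G'
  have hG : |G a e s| ≤ (R ^ 2) ^ (-a) := by
    rw [G, abs_of_nonneg (by positivity)]
    apply Real.rpow_le_rpow_of_nonpos hR2 _ (by linarith)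
    nlinarith [sq_nonneg e]
  have hG' : |(s + e ^ 2) ^ (-a - 1)| ≤ (R ^ 2) ^ (-a - 1) := by
    rw [abs_of_nonneg (by positivity)]
    apply Real.rpow_le_rpow_of_nonpos hR2 _ (by linarith)
    nlinarith [sq_nonneg e]
  have hd1 : |deriv (H R) s| ≤ C / R ^ 2 := by
    rw [H_deriv, abs_div, abs_neg, abs_of_pos hR2]
    exact div_le_div_of_nonneg_right (hb1 _) hR2.le
  have hd2 : |deriv (deriv (H R)) s| ≤ C / R ^ 4 := by
    rw [H_deriv2, abs_div, abs_of_pos (by positivity : (0:ℝ) < R ^ 4)]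
    exact div_le_div_of_nonneg_right (hb2 _) (by positivity)
  have e1 : (R ^ 2) ^ (-a - 1) = R⁻¹ ^ n := by
    rw [← Real.rpow_natCast R 2, ← Real.rpow_mul hR.le, ← Real.rpow_natCast R⁻¹ n,
      Real.inv_rpow hR.le, ← Real.rpow_neg hR.le, ← hn]
    congr 1; push_cast; ring
  have e2 : (R ^ 2) ^ (-a) = R⁻¹ ^ n * R ^ 2 := by
    rw [← e1, ← Real.rpow_add_one hR2.ne']; congr 1; ring
  rw [e2] at hG
  rw [e1] at hG'
  set X := R⁻¹ ^ n with hX
  have hXp : 0 < X := by positivity
  have t1 : |2 * (-a * (s + e ^ 2) ^ (-a - 1)) * deriv (H R) s| ≤ 2 * (a * X) * (C / R ^ 2) := by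
    rw [abs_mul, abs_mul, abs_mul, abs_neg, abs_of_nonneg ha, abs_of_pos (by norm_num : (0:ℝ) < 2)]
    gcongr
  have t2 : |G a e s * deriv (deriv (H R)) s| ≤ (X * R ^ 2) * (C / R ^ 4) := by
    rw [abs_mul]; gcongr
  have t3 : |2 * n * G a e s * deriv (H R) s| ≤ 2 * n * (X * R ^ 2) * (C / R ^ 2) := by
    rw [abs_mul, abs_mul, abs_mul, abs_of_pos (by norm_num : (0:ℝ) < 2),
      abs_of_nonneg (by positivity : (0:ℝ) ≤ n)]
    gcongr
  have t4 : |4 * s * (2 * (-a * (s + e ^ 2) ^ (-a - 1)) * deriv (H R) s + G a e s * deriv (deriv (H R)) s)|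
      ≤ 4 * (2 * R ^ 2) * (2 * (a * X) * (C / R ^ 2) + (X * R ^ 2) * (C / R ^ 4)) := by
    rw [abs_mul, abs_mul, abs_of_pos (by norm_num : (0:ℝ) < 4), abs_of_pos hs0]
    have := abs_add_le (2 * (-a * (s + e ^ 2) ^ (-a - 1)) * deriv (H R) s) (G a e s * deriv (deriv (H R)) s)
    gcongr
    linarith
  rw [rest]
  refine (abs_add_le _ _).trans ((add_le_add t4 t3).trans (le_of_eq ?_))
  field_simp
  ring

noncomputable def psi (n : ℕ) (e : ℝ) (z : E n) : ℝ := (‖z‖ ^ 2 + e ^ 2) ^ (-(((n : ℝ) - 2) / 2) - 2)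

lemma psi_pos {n : ℕ} {e : ℝ} (he : 0 < e) (z : E n) : 0 < psi n e z := by
  unfold psi; positivity

lemma psi_cont {n : ℕ} {e : ℝ} (he : 0 < e) : Continuous (psi n e) := by
  unfold psi
  apply Continuous.rpow_const (by fun_prop)
  intro x; left; positivity

lemma psi_one_integrable (n : ℕ) : Integrable (psi n 1) := by
  have h := integrable_rpow_neg_one_add_norm_sq (E := E n) (μ := volume) (r := (n : ℝ) + 2)
    (by rw [finrank_euclideanSpace_fin]; linarith)
  refine h.congr (Eventually.of_forall fun x => ?_)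
  simp only [psi]
  rw [show (1:ℝ) + ‖x‖ ^ 2 = ‖x‖ ^ 2 + 1 ^ 2 by ring]
  congr 1; ring

lemma psi_one_norm_integrable (n : ℕ) : Integrable (fun z : E n => ‖z‖ * psi n 1 z) := by
  have h := integrable_rpow_neg_one_add_norm_sq (E := E n) (μ := volume) (r := (n : ℝ) + 1)
    (by rw [finrank_euclideanSpace_fin]; linarith)
  refine h.mono' ((continuous_norm.mul (psi_cont one_pos)).aestronglyMeasurable)
    (Eventually.of_forall fun x => ?_)
  have hp : (0:ℝ) < ‖x‖ ^ 2 + 1 := by positivity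
  have h1 : ‖x‖ ≤ (‖x‖ ^ 2 + 1) ^ ((1:ℝ) / 2) := by
    rw [← Real.sqrt_eq_rpow]
    apply Real.le_sqrt_of_sq_le; linarith
  rw [Real.norm_eq_abs, abs_of_nonneg (mul_nonneg (norm_nonneg _) (psi_pos one_pos x).le)]
  calc ‖x‖ * psi n 1 x ≤ (‖x‖ ^ 2 + 1) ^ ((1:ℝ) / 2) * psi n 1 x := by
        gcongr; exact (psi_pos one_pos x).le
    _ = (1 + ‖x‖ ^ 2) ^ (-((n : ℝ) + 1) / 2) := by
        simp only [psi, one_pow]
        rw [← Real.rpow_add hp, add_comm 1 (‖x‖ ^ 2)]
        congr 1; ring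

lemma psi_scale {n : ℕ} {e : ℝ} (he : 0 < e) (y : E n) :
    psi n e (e • y) = (e ^ 2) ^ (-(((n : ℝ) - 2) / 2) - 2) * psi n 1 y := by
  simp only [psi, norm_smul, Real.norm_eq_abs, abs_of_pos he]
  rw [← Real.mul_rpow (by positivity) (by positivity)]
  congr 1; ring

lemma psi_integrable {n : ℕ} {e : ℝ} (he : 0 < e) : Integrable (psi n e) := by
  have h := ((psi_one_integrable n).const_mul ((e ^ 2) ^ (-(((n : ℝ) - 2) / 2) - 2)))
  rw [← MeasureTheory.integrable_comp_smul_iff volume (psi n e) he.ne']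
  refine h.congr (Eventually.of_forall fun x => ?_)
  simp only [psi_scale he]

lemma psi_norm_integrable {n : ℕ} {e : ℝ} (he : 0 < e) :
    Integrable (fun z : E n => ‖z‖ * psi n e z) := by
  have h := ((psi_one_norm_integrable n).const_mul (e * (e ^ 2) ^ (-(((n : ℝ) - 2) / 2) - 2)))
  rw [← MeasureTheory.integrable_comp_smul_iff volume (fun z : E n => ‖z‖ * psi n e z) he.ne']
  refine h.congr (Eventually.of_forall fun x => ?_)
  simp only [psi_scale he, norm_smul, Real.norm_eq_abs, abs_of_pos he]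
  ring

noncomputable def mass (n : ℕ) (e : ℝ) : ℝ := ∫ z : E n, psi n e z

lemma mass_pos {n : ℕ} {e : ℝ} (he : 0 < e) : 0 < mass n e := by
  unfold mass
  rw [integral_pos_iff_support_of_nonneg (fun z => (psi_pos he z).le) (psi_integrable he)]
  have : Function.support (psi n e) = Set.univ := by
    ext z; simp [(psi_pos he z).ne']
  rw [this]
  exact Measure.measure_univ_pos.2 (NeZero.ne _)

/-- first moment of the normalised kernel scales linearly -/
lemma moment_scale {n : ℕ} {e : ℝ} (he : 0 < e) :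
    (∫ z : E n, ‖z‖ * psi n e z) / mass n e = e * ((∫ z : E n, ‖z‖ * psi n 1 z) / mass n 1) := by
  have h1 := Measure.integral_comp_smul (volume : Measure (E n)) (fun z : E n => ‖z‖ * psi n e z) e
  have h2 := Measure.integral_comp_smul (volume : Measure (E n)) (psi n e) e
  simp only [psi_scale he, norm_smul, Real.norm_eq_abs, abs_of_pos he, smul_eq_mul] at h1 h2
  have h1' : (e * (e ^ 2) ^ (-(((n : ℝ) - 2) / 2) - 2)) * ∫ z : E n, ‖z‖ * psi n 1 z
      = |(e ^ Module.finrank ℝ (E n))⁻¹| * ∫ x : E n, ‖x‖ * psi n e x := by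
    rw [← h1, ← integral_const_mul]
    congr 1; ext z; ring
  have h2' : ((e ^ 2) ^ (-(((n : ℝ) - 2) / 2) - 2)) * mass n 1
      = |(e ^ Module.finrank ℝ (E n))⁻¹| * mass n e := by
    unfold mass
    rw [← h2, ← integral_const_mul]
  set A := (e ^ 2) ^ (-(((n : ℝ) - 2) / 2) - 2) with hA
  set B := |(e ^ Module.finrank ℝ (E n))⁻¹| with hB
  have hAp : 0 < A := by positivity
  have hBp : 0 < B := by rw [hB]; positivity
  have hm1 := mass_pos (n := n) (one_pos)
  have hme := mass_pos (n := n) he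
  set M1 := mass n 1
  set Me := mass n e
  set I1 := ∫ z : E n, ‖z‖ * psi n 1 z
  set Ie := ∫ z : E n, ‖z‖ * psi n e z
  rw [div_eq_iff hme.ne', mul_comm e, mul_assoc, div_mul_eq_mul_div, eq_div_iff hm1.ne']
  have : B * (Ie * M1) = B * (I1 * (e * Me)) := by
    calc B * (Ie * M1) = (B * Ie) * M1 := by ring
      _ = (e * A * I1) * M1 := by rw [← h1']
      _ = e * I1 * (A * M1) := by ring
      _ = e * I1 * (B * Me) := by rw [h2']
      _ = B * (I1 * (e * Me)) := by ring
  exact mul_left_cancel₀ hBp.ne' this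

/-- approximate identity, uniform lower bound -/
lemma approx_id {n : ℕ} (g : E n → ℝ) (hg : Continuous g) (hc : HasCompactSupport g) {η : ℝ}
    (hη : 0 < η) :
    ∃ e : ℝ, 0 < e ∧ ∀ x, g x - η ≤ ∫ t, g t * (psi n e (x - t) / mass n e) := by
  obtain ⟨M, hM⟩ := hc.exists_bound_of_continuous hg
  have hM0 : 0 ≤ M := (norm_nonneg _).trans (hM 0)
  have huc : UniformContinuous g := hc.uniformContinuous_of_continuous hg
  obtain ⟨δ, hδ, hδ'⟩ := Metric.uniformContinuous_iff.1 huc (η / 2) (by positivity)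
  set m := (∫ z : E n, ‖z‖ * psi n 1 z) / mass n 1 with hm
  have hm0 : 0 ≤ m := by
    apply div_nonneg _ (mass_pos one_pos).le
    apply integral_nonneg
    intro z; exact mul_nonneg (norm_nonneg _) (psi_pos one_pos z).le
  refine ⟨(η / 2) / (2 * M / δ * m + 1), by positivity, fun x => ?_⟩
  set e := (η / 2) / (2 * M / δ * m + 1) with he'
  have he : 0 < e := by positivity
  have hme := mass_pos (n := n) he
  have hbound : 2 * M / δ * (e * m) ≤ η / 2 := by
    have h1 : e * (2 * M / δ * m + 1) = η / 2 := by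
      rw [he']; field_simp
    nlinarith
  -- change variables
  have hsub : ∫ t, g t * (psi n e (x - t) / mass n e) = ∫ z, g (x - z) * (psi n e z / mass n e) := by
    rw [← integral_sub_left_eq_self (fun t => g t * (psi n e (x - t) / mass n e)) volume x]
    congr 1; ext z; simp
  rw [hsub]
  have hint1 : Integrable (fun z => psi n e z / mass n e) := (psi_integrable he).div_const _
  have hint2 : Integrable (fun z => g (x - z) * (psi n e z / mass n e)) := by
    refine (hint1.const_mul M).mono' ?_ (Eventually.of_forall fun z => ?_)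
    · exact ((hg.comp (continuous_const.sub continuous_id)).mul
        ((psi_cont he).div_const _)).aestronglyMeasurable
    · rw [norm_mul, Real.norm_eq_abs (psi n e z / _), abs_of_nonneg (by
        exact div_nonneg (psi_pos he z).le hme.le)]
      gcongr
      · exact div_nonneg (psi_pos he z).le hme.le
      · exact hM _
  have hint3 : Integrable (fun z : E n => ‖z‖ * psi n e z) := psi_norm_integrable he
  have hone : ∫ z, psi n e z / mass n e = 1 := by
    rw [integral_div]; exact div_self hme.ne'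
  have key : ∀ z, (g x - η / 2) * (psi n e z / mass n e) - 2 * M / δ * (‖z‖ * psi n e z / mass n e)
      ≤ g (x - z) * (psi n e z / mass n e) := by
    intro z
    have hp : 0 ≤ psi n e z / mass n e := div_nonneg (psi_pos he z).le hme.le
    have h1 : g x - η / 2 - 2 * M / δ * ‖z‖ ≤ g (x - z) := by
      by_cases hz : ‖z‖ < δ
      · have := hδ' (a := x - z) (b := x) (by rw [dist_eq_norm]; simpa using hz)
        rw [Real.dist_eq, abs_lt] at this
        have h3 : 0 ≤ 2 * M / δ * ‖z‖ := by positivity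
        linarith [this.1]
      · push Not at hz
        have h4 : 2 * M ≤ 2 * M / δ * ‖z‖ := by
          rw [div_mul_eq_mul_div, le_div_iff₀ hδ]
          gcongr
        have h5 := hM x
        have h6 := hM (x - z)
        rw [Real.norm_eq_abs, abs_le] at h5 h6
        linarith [h5.2, h6.1]
    calc _ = (g x - η / 2 - 2 * M / δ * ‖z‖) * (psi n e z / mass n e) := by ring
      _ ≤ _ := mul_le_mul_of_nonneg_right h1 hp
  have hI : ∫ z, ((g x - η / 2) * (psi n e z / mass n e) - 2 * M / δ * (‖z‖ * psi n e z / mass n e))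
      = (g x - η / 2) - 2 * M / δ * (e * m) := by
    rw [integral_sub (hint1.const_mul _) ((hint3.div_const _).const_mul _),
      integral_const_mul, integral_const_mul, hone, integral_div, moment_scale he]
    ring
  have := integral_mono ((hint1.const_mul _).sub ((hint3.div_const _).const_mul _)) hint2 key
  rw [show (fun z => (g x - η / 2) * (psi n e z / mass n e)) - (fun z =>
    2 * M / δ * (‖z‖ * psi n e z / mass n e)) = fun z => ((g x - η / 2) * (psi n e z / mass n e)
    - 2 * M / δ * (‖z‖ * psi n e z / mass n e)) from rfl, hI] at this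
  linarith

lemma two_le_inf : (2 : WithTop ℕ∞) ≤ ∞ := by
  have : ((2 : ℕ∞) : WithTop ℕ∞) ≤ ((⊤ : ℕ∞) : WithTop ℕ∞) := WithTop.coe_le_coe.2 le_top
  exact this

lemma integral_conv_mul {n : ℕ} (g P : E n → ℝ) (hg : Integrable g) (hP : Integrable P) :
    ∫ x, ∫ t, g t * P (x - t) = (∫ t, g t) * ∫ z, P z := by
  have h := integral_convolution (L := ContinuousLinearMap.mul ℝ ℝ) (μ := (volume : Measure (E n)))
      (ν := (volume : Measure (E n))) hg hP
  exact h

/-- cut off radial function -/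
noncomputable def Phi (n : ℕ) (e R : ℝ) (z : E n) : ℝ := F (((n : ℝ) - 2) / 2) e R (‖z‖ ^ 2)

noncomputable def PP (n : ℕ) (e R : ℝ) (z : E n) : ℝ := H R (‖z‖ ^ 2) * psi n e z / mass n e

lemma Phi_contDiff {n : ℕ} {e R : ℝ} (he : 0 < e) : ContDiff ℝ ∞ (Phi n e R) := by
  rw [contDiff_iff_contDiffAt]
  intro z
  have h1 : ContDiffAt ℝ ∞ (fun y : E n => ‖y‖ ^ 2) z := (contDiff_norm_sq ℝ).contDiffAt
  exact (F_contDiffAt _ e R (‖z‖ ^ 2) (by positivity)).comp z h1

lemma Phi_nonneg {n : ℕ} {e R : ℝ} (he : 0 < e) (z : E n) : 0 ≤ Phi n e R z := by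
  unfold Phi F G
  exact mul_nonneg (by positivity) (H_nonneg _ _)

lemma H_zero_far {n : ℕ} {R : ℝ} (hR : 0 < R) (z : E n) (h : 2 * R ≤ ‖z‖) : H R (‖z‖ ^ 2) = 0 := by
  apply H_eq_zero hR
  nlinarith [norm_nonneg z]

lemma Phi_supp {n : ℕ} {e R : ℝ} (hR : 0 < R) : HasCompactSupport (Phi n e R) := by
  apply HasCompactSupport.intro (isCompact_closedBall (0 : E n) (2 * R))
  intro x hx
  have : 2 * R ≤ ‖x‖ := by
    rw [Metric.mem_closedBall, dist_zero_right] at hx
    push Not at hx; exact hx.le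
  unfold Phi F
  rw [H_zero_far hR x this, mul_zero]

lemma PP_supp {n : ℕ} {e R : ℝ} (hR : 0 < R) : HasCompactSupport (PP n e R) := by
  apply HasCompactSupport.intro (isCompact_closedBall (0 : E n) (2 * R))
  intro x hx
  have : 2 * R ≤ ‖x‖ := by
    rw [Metric.mem_closedBall, dist_zero_right] at hx
    push Not at hx; exact hx.le
  unfold PP
  rw [H_zero_far hR x this, zero_mul, zero_div]

lemma PP_cont {n : ℕ} {e R : ℝ} (he : 0 < e) : Continuous (PP n e R) := by
  unfold PP
  have h1 : Continuous fun z : E n => H R (‖z‖ ^ 2) :=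
    (H_contDiff R).continuous.comp (by fun_prop)
  exact (h1.mul (psi_cont he)).div_const _

lemma PP_nonneg {n : ℕ} {e R : ℝ} (he : 0 < e) (z : E n) : 0 ≤ PP n e R z := by
  unfold PP
  exact div_nonneg (mul_nonneg (H_nonneg _ _) (psi_pos he z).le) (mass_pos he).le

lemma PP_integrable {n : ℕ} {e R : ℝ} (he : 0 < e) (hR : 0 < R) : Integrable (PP n e R) :=
  (PP_cont he).integrable_of_hasCompactSupport (PP_supp hR)

lemma PP_int_le {n : ℕ} {e R : ℝ} (he : 0 < e) (hR : 0 < R) : ∫ z, PP n e R z ≤ 1 := by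
  have h1 : ∫ z : E n, psi n e z / mass n e = 1 := by
    rw [integral_div]; exact div_self (mass_pos he).ne'
  rw [← h1]
  apply integral_mono (PP_integrable he hR) ((psi_integrable he).div_const _)
  intro z
  unfold PP
  have := H_le_one R (‖z‖ ^ 2)
  have h2 := (psi_pos (n := n) he z).le
  have h3 := mass_pos (n := n) he
  simp only
  gcongr
  nlinarith

/-- the constant -/
noncomputable def KK (n : ℕ) (e : ℝ) : ℝ := 2 * (((n : ℝ) - 2) / 2) * n * e ^ 2 * mass n e

lemma KK_pos {n : ℕ} (hn : 3 ≤ n) {e : ℝ} (he : 0 < e) : 0 < KK n e := by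
  unfold KK
  have : (3:ℝ) ≤ n := by exact_mod_cast hn
  have h3 := mass_pos (n := n) he
  have : 0 < ((n : ℝ) - 2) / 2 := by linarith
  positivity

lemma lap_Phi {n : ℕ} {e R : ℝ} (he : 0 < e) (z : E n) :
    Δ (Phi n e R) z = -(KK n e * PP n e R z) + rest n (((n : ℝ) - 2) / 2) e R (‖z‖ ^ 2) := by
  have h := lap_radial (n := n) (F (((n : ℝ) - 2) / 2) e R) (fun s hs => by
    have : ContDiffAt ℝ ∞ (F (((n : ℝ) - 2) / 2) e R) s := F_contDiffAt _ _ _ _ (by positivity)
    exact this.of_le two_le_inf) z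
  have e1 : Phi n e R = fun y : E n => F (((n : ℝ) - 2) / 2) e R (‖y‖ ^ 2) := rfl
  rw [e1, h, F_lap n _ e R _ (by ring) (by positivity)]
  unfold KK PP psi
  have h3 := mass_pos (n := n) he
  field_simp

/-- error kernel -/
noncomputable def QQ (n : ℕ) (e R : ℝ) (z : E n) : ℝ := rest n (((n : ℝ) - 2) / 2) e R (‖z‖ ^ 2)

lemma QQ_eq {n : ℕ} {e R : ℝ} (he : 0 < e) :
    QQ n e R = fun z : E n => Δ (Phi n e R) z + KK n e * PP n e R z := by
  ext z; rw [lap_Phi he]; unfold QQ; ring

lemma lap_cont {n : ℕ} {f : E n → ℝ} (hf : ContDiff ℝ 2 f) : Continuous (Δ f) := by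
  have : (Δ f) = fun z => ∑ i, fderiv ℝ (fun y => fderiv ℝ f y (bas n i)) z (bas n i) := by
    ext z; exact lap_eq f z hf.contDiffAt
  rw [this]
  apply continuous_finsetSum
  intro i _
  have hcdi : ContDiff ℝ 1 (fun z => fderiv ℝ f z (bas n i)) :=
    (hf.fderiv_right (m := 1) (by norm_num)).clm_apply contDiff_const
  exact (hcdi.continuous_fderiv (by norm_num)).clm_apply continuous_const

lemma lap_supp {n : ℕ} {f : E n → ℝ} (hf : ContDiff ℝ 2 f) (hc : HasCompactSupport f) :
    HasCompactSupport (Δ f) := by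
  have : (Δ f) = fun z => ∑ i, fderiv ℝ (fun y => fderiv ℝ f y (bas n i)) z (bas n i) := by
    ext z; exact lap_eq f z hf.contDiffAt
  rw [this]
  apply HasCompactSupport.intro hc
  intro x hx
  have h0 : f =ᶠ[𝓝 x] 0 := by
    rw [← notMem_tsupport_iff_eventuallyEq]; exact hx
  apply Finset.sum_eq_zero
  intro i _
  have h1 : (fun y => fderiv ℝ f y (bas n i)) =ᶠ[𝓝 x] 0 := by
    filter_upwards [h0.eventuallyEq_nhds] with y hy
    rw [hy.fderiv_eq]; simp
  rw [h1.fderiv_eq]; simp

lemma QQ_cont {n : ℕ} {e R : ℝ} (he : 0 < e) : Continuous (QQ n e R) := by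
  rw [QQ_eq he]
  have h2 : ContDiff ℝ 2 (Phi n e R) := (Phi_contDiff he).of_le two_le_inf
  exact (lap_cont h2).add (continuous_const.mul (PP_cont he))

lemma QQ_zero_far {n : ℕ} {e R : ℝ} (hn : 3 ≤ n) (hR : 0 < R) (z : E n) (h : 2 * R ≤ ‖z‖) :
    QQ n e R z = 0 := by
  have : (3:ℝ) ≤ n := by exact_mod_cast hn
  obtain ⟨C, hC, hb⟩ := rest_bound n (((n : ℝ) - 2) / 2) (by linarith) (by ring)
  exact (hb e R (‖z‖ ^ 2) hR (by positivity)).2.1 (by nlinarith [norm_nonneg z])

lemma QQ_zero_near {n : ℕ} {e R : ℝ} (hn : 3 ≤ n) (hR : 0 < R) (z : E n) (h : ‖z‖ ≤ R) :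
    QQ n e R z = 0 := by
  have : (3:ℝ) ≤ n := by exact_mod_cast hn
  obtain ⟨C, hC, hb⟩ := rest_bound n (((n : ℝ) - 2) / 2) (by linarith) (by ring)
  exact (hb e R (‖z‖ ^ 2) hR (by positivity)).1 (by nlinarith [norm_nonneg z])

lemma QQ_bound (n : ℕ) (hn : 3 ≤ n) :
    ∃ C : ℝ, 0 < C ∧ ∀ e R : ℝ, 0 < R → ∀ z : E n, |QQ n e R z| ≤ C * R⁻¹ ^ n := by
  have : (3:ℝ) ≤ n := by exact_mod_cast hn
  obtain ⟨C, hC, hb⟩ := rest_bound n (((n : ℝ) - 2) / 2) (by linarith) (by ring)
  exact ⟨C, hC, fun e R hR z => (hb e R (‖z‖ ^ 2) hR (by positivity)).2.2⟩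

lemma QQ_supp {n : ℕ} {e R : ℝ} (hn : 3 ≤ n) (hR : 0 < R) : HasCompactSupport (QQ n e R) := by
  apply HasCompactSupport.intro (isCompact_closedBall (0 : E n) (2 * R))
  intro x hx
  have : 2 * R ≤ ‖x‖ := by
    rw [Metric.mem_closedBall, dist_zero_right] at hx
    push Not at hx; exact hx.le
  exact QQ_zero_far hn hR x this

lemma sq_supp {n : ℕ} {f : E n → ℝ} (hf : HasCompactSupport f) :
    HasCompactSupport (fun x => f x ^ 2) := by
  apply HasCompactSupport.intro hf
  intro x hx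
  rw [image_eq_zero_of_notMem_tsupport hx]; simp

lemma sq_integrable {n : ℕ} {f : E n → ℝ} (hf : Continuous f) (hc : HasCompactSupport f) :
    Integrable (fun x => f x ^ 2) :=
  (hf.pow 2).integrable_of_hasCompactSupport (sq_supp hc)

lemma conv_cont_supp {n : ℕ} (f P : E n → ℝ) (hf : Continuous f) (hfc : HasCompactSupport f)
    (hP : Continuous P) (hPc : HasCompactSupport P) :
    Continuous (fun x => ∫ t, f t * P (x - t)) ∧
      HasCompactSupport (fun x => ∫ t, f t * P (x - t)) := by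
  have h1 : (fun x => ∫ t, f t * P (x - t)) = convolution f P (ContinuousLinearMap.mul ℝ ℝ) volume := by
    ext x; rfl
  rw [h1]
  exact ⟨hPc.continuous_convolution_right _ (hf.locallyIntegrable) hP, hfc.convolution _ hPc⟩

/-- Jensen for a sub-probability kernel: `(g ⋆ P)² ≤ g² ⋆ P` integrated -/
lemma conv_sq_le {n : ℕ} (g P : E n → ℝ) (hg : Continuous g) (hgc : HasCompactSupport g)
    (hP : Continuous P) (hPc : HasCompactSupport P) (hP0 : ∀ z, 0 ≤ P z) (hP1 : ∫ z, P z ≤ 1) :
    ∫ x, (∫ t, g t * P (x - t)) ^ 2 ≤ ∫ x, g x ^ 2 := by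
  have hL : ∀ x, Integrable (fun t => P (x - t)) := fun x =>
    (hP.integrable_of_hasCompactSupport hPc).comp_sub_left x
  have hPx : ∀ x, ∫ t, P (x - t) = ∫ z, P z := fun x =>
    integral_sub_left_eq_self P volume x
  have hcont : ∀ (f : E n → ℝ), Continuous f → HasCompactSupport f → ∀ x,
      Integrable (fun t => f t * P (x - t)) := by
    intro f hf hfc x
    exact (hf.mul (hP.comp (continuous_const.sub continuous_id))).integrable_of_hasCompactSupport
      hfc.mul_right
  have hg2 : Continuous (fun t => g t ^ 2) := hg.pow 2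
  have hg2c : HasCompactSupport (fun t => g t ^ 2) := sq_supp hgc
  -- pointwise
  have hpt : ∀ x, (∫ t, g t * P (x - t)) ^ 2 ≤ ∫ t, g t ^ 2 * P (x - t) := by
    intro x
    set A := ∫ t, g t * P (x - t) with hA
    have h0 : 0 ≤ ∫ t, (g t - A) ^ 2 * P (x - t) :=
      integral_nonneg fun t => mul_nonneg (sq_nonneg _) (hP0 _)
    have h1 : ∫ t, (g t - A) ^ 2 * P (x - t)
        = (∫ t, g t ^ 2 * P (x - t)) - 2 * A * A + A ^ 2 * ∫ z, P z := by
      have e1 : (fun t => (g t - A) ^ 2 * P (x - t))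
          = fun t => (g t ^ 2 * P (x - t) - 2 * A * (g t * P (x - t))) + A ^ 2 * P (x - t) := by
        ext t; ring
      rw [e1, integral_add, integral_sub, integral_const_mul, integral_const_mul, hPx]
      · exact hcont _ hg2 hg2c x
      · exact (hcont _ hg hgc x).const_mul _
      · exact (hcont _ hg2 hg2c x).sub ((hcont _ hg hgc x).const_mul _)
      · exact (hL x).const_mul _
    nlinarith [sq_nonneg A]
  have c1 : ∀ (f : E n → ℝ), Continuous f → HasCompactSupport f →
      Continuous (fun x => ∫ t, f t * P (x - t)) ∧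
      HasCompactSupport (fun x => ∫ t, f t * P (x - t)) := fun f hf hfc =>
    conv_cont_supp f P hf hfc hP hPc
  have hI1 : Integrable (fun x => (∫ t, g t * P (x - t)) ^ 2) :=
    sq_integrable (c1 g hg hgc).1 (c1 g hg hgc).2
  have hI2 : Integrable (fun x => ∫ t, g t ^ 2 * P (x - t)) := by
    have h := c1 _ hg2 hg2c
    exact h.1.integrable_of_hasCompactSupport h.2
  have h3 : ∫ x, ∫ t, g t ^ 2 * P (x - t) = (∫ t, g t ^ 2) * ∫ z, P z :=
    integral_conv_mul (fun t => g t ^ 2) P (hg2.integrable_of_hasCompactSupport hg2c)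
      (hP.integrable_of_hasCompactSupport hPc)
  calc _ ≤ ∫ x, ∫ t, g t ^ 2 * P (x - t) := integral_mono hI1 hI2 hpt
    _ = (∫ t, g t ^ 2) * ∫ z, P z := h3
    _ ≤ (∫ t, g t ^ 2) * 1 := by
        apply mul_le_mul_of_nonneg_left hP1
        exact integral_nonneg fun t => sq_nonneg _
    _ = _ := mul_one _

lemma young_sq (A B τ : ℝ) (hτ : 0 < τ) :
    (-A + B) ^ 2 ≤ (1 + τ) * A ^ 2 + (1 + 1 / τ) * B ^ 2 := by
  have h : 0 ≤ (τ * A + B) ^ 2 / τ := by positivity
  have e : (1 + τ) * A ^ 2 + (1 + 1 / τ) * B ^ 2 - (-A + B) ^ 2 = (τ * A + B) ^ 2 / τ := by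
    field_simp; ring
  linarith

/-- main approximation lemma -/
lemma approx {n : ℕ} (hn : 3 ≤ n) (g : E n → ℝ) (hg : Continuous g) (hg0 : ∀ x, 0 ≤ g x)
    {R0 : ℝ} (hR0 : 0 < R0) (hsupp : ∀ x, R0 < ‖x‖ → g x = 0) {η : ℝ} (hη : 0 < η) :
    ∃ w : E n → ℝ, ContDiff ℝ ∞ w ∧ HasCompactSupport w ∧ (∀ x, 0 ≤ w x) ∧
      (∀ x, ‖x‖ ≤ R0 → g x - η ≤ -(Δ w x)) ∧ ∫ x, (Δ w x) ^ 2 ≤ (∫ x, g x ^ 2) + η := by
  have hgc : HasCompactSupport g := by
    apply HasCompactSupport.intro (isCompact_closedBall (0 : E n) R0)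
    intro x hx
    rw [Metric.mem_closedBall, dist_zero_right] at hx
    push Not at hx; exact hsupp x hx
  obtain ⟨e, he, hlow⟩ := approx_id g hg hgc hη
  obtain ⟨C, hC, hQ⟩ := QQ_bound n hn
  have hK := KK_pos hn he
  set K := KK n e with hKdef
  set I1 := ∫ x, g x with hI1
  set I2 := ∫ x, g x ^ 2 with hI2
  have hI1' : 0 ≤ I1 := integral_nonneg hg0
  have hI2' : 0 ≤ I2 := integral_nonneg fun x => sq_nonneg _
  set τ := η / (2 * (I2 + 1)) with hτdef
  have hτ : 0 < τ := by positivity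
  have hτI : τ * I2 ≤ η / 2 := by
    have : τ * (I2 + 1) = η / 2 := by rw [hτdef]; field_simp
    nlinarith
  set V := (volume (Metric.ball (0 : E n) 1)).toReal with hV
  have hV0 : 0 ≤ V := ENNReal.toReal_nonneg
  set D := K⁻¹ * (I1 * C) with hD
  have hD0 : 0 ≤ D := by positivity
  set W := (1 + 1 / τ) * (D ^ 2 * 3 ^ n * V) with hW
  have hW0 : 0 ≤ W := by positivity
  set R := 2 * R0 + 1 + 2 * W / η with hR
  have hRW : 0 ≤ 2 * W / η := by positivity
  have hRpos : 0 < R := by positivity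
  have hR1 : 1 ≤ R := by rw [hR]; linarith
  have hR2 : 2 * R0 ≤ R := by rw [hR]; linarith
  -- functions
  set A : E n → ℝ := fun x => ∫ t, g t * PP n e R (x - t) with hA
  set B : E n → ℝ := fun x => K⁻¹ * ∫ t, g t * QQ n e R (x - t) with hB
  have hPhi := Phi_contDiff (n := n) (R := R) he
  have hPhic := Phi_supp (n := n) (e := e) hRpos
  have hPhi2 : ContDiff ℝ 2 (Phi n e R) := hPhi.of_le two_le_inf
  have hg' : Continuous fun t => K⁻¹ * g t := continuous_const.mul hg
  set w : E n → ℝ := convolution (fun t => K⁻¹ * g t) (Phi n e R)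
    (ContinuousLinearMap.mul ℝ ℝ) volume with hw
  have hwC : ContDiff ℝ ∞ w := hPhic.contDiff_convolution_right _ hg'.locallyIntegrable hPhi
  have hgc' : HasCompactSupport fun t => K⁻¹ * g t := hgc.mul_left
  have hwc : HasCompactSupport w := hgc'.convolution _ hPhic
  have hint : ∀ (f P : E n → ℝ), Continuous f → HasCompactSupport f → Continuous P → ∀ x,
      Integrable (fun t => f t * P (x - t)) := by
    intro f P hf hfc hP x
    exact (hf.mul (hP.comp (continuous_const.sub continuous_id))).integrable_of_hasCompactSupport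
      hfc.mul_right
  have hlap : ∀ x, Δ w x = -A x + B x := by
    intro x
    rw [hw, conv_lap _ _ hg'.locallyIntegrable hPhi hPhic x]
    have e1 : convolution (fun t => K⁻¹ * g t) (Δ (Phi n e R)) (ContinuousLinearMap.mul ℝ ℝ) volume x
        = ∫ t, (K⁻¹ * g t) * (Δ (Phi n e R)) (x - t) := rfl
    rw [e1]
    have e2 : (fun t => (K⁻¹ * g t) * (Δ (Phi n e R)) (x - t)) =
        fun t => -(g t * PP n e R (x - t)) + K⁻¹ * (g t * QQ n e R (x - t)) := by
      ext t
      have h3 : (Δ (Phi n e R)) (x - t) = -(K * PP n e R (x - t)) + QQ n e R (x - t) := by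
        rw [lap_Phi he]; rfl
      rw [h3]
      field_simp
    rw [e2, integral_add, integral_neg, integral_const_mul]
    · exact (hint g _ hg hgc (PP_cont he) x).neg
    · exact (hint g _ hg hgc (QQ_cont he) x).const_mul _
  refine ⟨w, hwC, hwc, ?_, ?_, ?_⟩
  · intro x
    have e1 : w x = ∫ t, (K⁻¹ * g t) * (Phi n e R) (x - t) := rfl
    rw [e1]
    exact integral_nonneg fun t =>
      mul_nonneg (mul_nonneg (by positivity) (hg0 t)) (Phi_nonneg he _)
  · intro x hx
    rw [hlap]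
    have hBx : B x = 0 := by
      simp only [hB]
      have : ∀ t, g t * QQ n e R (x - t) = 0 := by
        intro t
        by_cases ht : R0 < ‖t‖
        · rw [hsupp t ht, zero_mul]
        · push Not at ht
          rw [QQ_zero_near hn hRpos (x - t) ((norm_sub_le x t).trans (by linarith)), mul_zero]
      simp [this]
    have hAx : A x = ∫ t, g t * (psi n e (x - t) / mass n e) := by
      simp only [hA]
      congr 1; ext t
      by_cases ht : R0 < ‖t‖
      · rw [hsupp t ht, zero_mul, zero_mul]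
      · push Not at ht
        have h1 : ‖x - t‖ ≤ R := (norm_sub_le x t).trans (by linarith)
        unfold PP
        rw [H_eq_one hRpos (by nlinarith [norm_nonneg (x - t)]), one_mul]
    rw [hBx, hAx]
    have := hlow x
    linarith
  · have hAc := conv_cont_supp g (PP n e R) hg hgc (PP_cont he) (PP_supp hRpos)
    have hBc := conv_cont_supp g (QQ n e R) hg hgc (QQ_cont he) (QQ_supp hn hRpos)
    have hAi : Integrable (fun x => A x ^ 2) := sq_integrable hAc.1 hAc.2
    have hBcont : Continuous B := continuous_const.mul hBc.1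
    have hBi : Integrable (fun x => B x ^ 2) :=
      sq_integrable hBcont hBc.2.mul_left
    have hA2 : ∫ x, A x ^ 2 ≤ I2 :=
      conv_sq_le g (PP n e R) hg hgc (PP_cont he) (PP_supp hRpos) (PP_nonneg he)
        (PP_int_le he hRpos)
    -- bound on B
    have hBb : ∀ x, |B x| ≤ D * R⁻¹ ^ n := by
      intro x
      simp only [hB]
      rw [abs_mul, abs_of_pos (inv_pos.2 hK)]
      have h1 : |∫ t, g t * QQ n e R (x - t)| ≤ I1 * (C * R⁻¹ ^ n) := by
        rw [hI1, ← integral_mul_const]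
        refine (abs_integral_le_integral_abs).trans ?_
        apply integral_mono
        · exact (hint g _ hg hgc (QQ_cont he) x).abs
        · exact (hg.integrable_of_hasCompactSupport hgc).mul_const _
        · intro t
          simp only
          rw [abs_mul, abs_of_nonneg (hg0 t)]
          exact mul_le_mul_of_nonneg_left (hQ e R hRpos _) (hg0 t)
      calc K⁻¹ * |∫ t, g t * QQ n e R (x - t)| ≤ K⁻¹ * (I1 * (C * R⁻¹ ^ n)) := by gcongr
        _ = D * R⁻¹ ^ n := by rw [hD]; ring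
    have hB0 : ∀ x, x ∉ Metric.closedBall (0 : E n) (3 * R) → B x = 0 := by
      intro x hx
      rw [Metric.mem_closedBall, dist_zero_right] at hx
      push Not at hx
      simp only [hB]
      have : ∀ t, g t * QQ n e R (x - t) = 0 := by
        intro t
        by_cases ht : R0 < ‖t‖
        · rw [hsupp t ht, zero_mul]
        · push Not at ht
          have h1 : ‖x‖ - ‖t‖ ≤ ‖x - t‖ := norm_sub_norm_le x t
          rw [QQ_zero_far hn hRpos (x - t) (by linarith), mul_zero]
      simp [this]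
    have hB2 : ∫ x, B x ^ 2 ≤ (D * R⁻¹ ^ n) ^ 2 * ((3 * R) ^ n * V) := by
      have h1 : ∫ x, B x ^ 2 = ∫ x in Metric.closedBall (0 : E n) (3 * R), B x ^ 2 := by
        rw [setIntegral_eq_integral_of_forall_compl_eq_zero]
        intro x hx; rw [hB0 x hx]; simp
      rw [h1]
      have h2 : ∫ x in Metric.closedBall (0 : E n) (3 * R), B x ^ 2
          ≤ ∫ x in Metric.closedBall (0 : E n) (3 * R), (D * R⁻¹ ^ n) ^ 2 := by
        apply setIntegral_mono hBi.integrableOn
        · exact integrableOn_const (measure_closedBall_lt_top).ne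
        · intro x
          have := hBb x
          simp only
          rw [← sq_abs (B x)]
          gcongr
      refine h2.trans (le_of_eq ?_)
      rw [setIntegral_const, smul_eq_mul, mul_comm]
      congr 1
      rw [Measure.real, Measure.addHaar_closedBall _ _ (by positivity), finrank_euclideanSpace_fin,
        ENNReal.toReal_mul, ENNReal.toReal_ofReal (by positivity)]
    have hfin : ∫ x, (Δ w x) ^ 2 ≤ (1 + τ) * (∫ x, A x ^ 2) + (1 + 1 / τ) * ∫ x, B x ^ 2 := by
      rw [← integral_const_mul, ← integral_const_mul, ← integral_add (hAi.const_mul _) (hBi.const_mul _)]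
      apply integral_mono
      · have h2 : ContDiff ℝ 2 w := hwC.of_le two_le_inf
        exact sq_integrable (lap_cont h2) (lap_supp h2 hwc)
      · exact (hAi.const_mul _).add (hBi.const_mul _)
      · intro x
        simp only [hlap]
        exact young_sq (A x) (B x) τ hτ
    have hRn : (R⁻¹) ^ n ≤ R⁻¹ := by
      have h1 : R⁻¹ ≤ 1 := inv_le_one_of_one_le₀ hR1
      calc (R⁻¹) ^ n ≤ (R⁻¹) ^ 1 := pow_le_pow_of_le_one (by positivity) h1 (by omega)
        _ = R⁻¹ := pow_one _
    have hsmall : (1 + 1 / τ) * ((D * R⁻¹ ^ n) ^ 2 * ((3 * R) ^ n * V)) ≤ η / 2 := by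
      have e1 : (1 + 1 / τ) * ((D * R⁻¹ ^ n) ^ 2 * ((3 * R) ^ n * V)) = W * R⁻¹ ^ n := by
        rw [hW, mul_pow 3 R n]
        have : R⁻¹ ^ n * R ^ n = 1 := by rw [← mul_pow, inv_mul_cancel₀ hRpos.ne', one_pow]
        calc _ = (1 + 1 / τ) * (D ^ 2 * 3 ^ n * V) * R⁻¹ ^ n * (R⁻¹ ^ n * R ^ n) := by ring
          _ = _ := by rw [this, mul_one]
      rw [e1]
      have h3 : W * R⁻¹ ^ n ≤ W * R⁻¹ := by gcongr
      have h4 : W * R⁻¹ ≤ η / 2 := by
        rw [← div_eq_mul_inv, div_le_iff₀ hRpos]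
        have h5 : η / 2 * (2 * W / η) = W := by field_simp
        have h6 : η / 2 * R = η / 2 * (2 * R0 + 1) + η / 2 * (2 * W / η) := by rw [hR]; ring
        rw [h6, h5]
        have : 0 ≤ η / 2 * (2 * R0 + 1) := by positivity
        linarith
      linarith
    have h7 : (1 + 1 / τ) * ∫ x, B x ^ 2 ≤ η / 2 :=
      (mul_le_mul_of_nonneg_left hB2 (by positivity)).trans hsmall
    have h8 : (1 + τ) * (∫ x, A x ^ 2) ≤ I2 + η / 2 := by
      calc (1 + τ) * (∫ x, A x ^ 2) ≤ (1 + τ) * I2 := by gcongr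
        _ = I2 + τ * I2 := by ring
        _ ≤ _ := by linarith
    linarith

/-- at an interior local maximum of a `C²` function the Laplacian is `≤ 0` -/
lemma lap_nonpos_of_isLocalMax {n : ℕ} {f : E n → ℝ} {x : E n} (hf : ContDiffAt ℝ 2 f x)
    (hmax : IsLocalMax f x) : Δ f x ≤ 0 := by
  rw [lap_eq f x hf]
  apply Finset.sum_nonpos
  intro i _
  set b := bas n i with hb
  by_contra hcon
  push Not at hcon
  -- the line
  set γ : ℝ → E n := fun t => x + t • b with hγ
  have hγd : ∀ t, HasDerivAt γ b t := by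
    intro t
    have := ((hasDerivAt_id t).smul_const b).const_add x
    rw [one_smul] at this
    exact this
  have hγc : Continuous γ := by fun_prop
  have hγ0 : γ 0 = x := by simp [hγ]
  set φ : ℝ → ℝ := fun t => f (γ t) with hφ
  have hev : ∀ᶠ y in 𝓝 x, DifferentiableAt ℝ f y := by
    have h1 : ∀ᶠ y in 𝓝 x, ContDiffAt ℝ 2 f y := hf.eventually (by simp)
    filter_upwards [h1] with y hy using hy.differentiableAt (by norm_num)
  have hev' : ∀ᶠ t in 𝓝 (0:ℝ), DifferentiableAt ℝ f (γ t) := by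
    have := hγc.continuousAt (x := 0)
    rw [ContinuousAt, hγ0] at this
    exact this.eventually hev
  have hd1 : deriv φ =ᶠ[𝓝 0] fun t => fderiv ℝ f (γ t) b := by
    filter_upwards [hev'] with t ht
    exact (ht.hasFDerivAt.comp_hasDerivAt t (hγd t)).deriv
  have hd2 : deriv (deriv φ) 0 = fderiv ℝ (fun y => fderiv ℝ f y b) x b := by
    rw [hd1.deriv_eq]
    have hdd : DifferentiableAt ℝ (fun y => fderiv ℝ f y b) x :=
      ((hf.fderiv_right (m := 1) (by norm_num)).differentiableAt (by norm_num)).clm_apply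
        (differentiableAt_const b)
    have h2 : HasFDerivAt (fun y => fderiv ℝ f y b) (fderiv ℝ (fun y => fderiv ℝ f y b) x) (γ 0) := by
      rw [hγ0]; exact hdd.hasFDerivAt
    exact (h2.comp_hasDerivAt 0 (hγd 0)).deriv
  have hmaxφ : IsLocalMax φ 0 := by
    have h1 : Tendsto γ (𝓝 0) (𝓝 x) := by
      have := hγc.continuousAt (x := 0)
      rwa [ContinuousAt, hγ0] at this
    have h2 : ∀ᶠ t in 𝓝 (0:ℝ), f (γ t) ≤ f x := h1.eventually hmax
    filter_upwards [h2] with t ht
    simp only [hφ, hγ0]; exact ht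
  have hφd0 : deriv φ 0 = 0 := hmaxφ.deriv_eq_zero
  have hφc : ContinuousAt φ 0 := by
    have h1 : ContinuousAt f (γ 0) := by rw [hγ0]; exact hf.continuousAt
    exact h1.comp hγc.continuousAt
  have hmin : IsLocalMin φ 0 :=
    isLocalMin_of_deriv_deriv_pos (by rw [hd2]; exact hcon) hφd0 hφc
  have hconst : φ =ᶠ[𝓝 0] fun _ => φ 0 := by
    filter_upwards [hmin, hmaxφ] with t h1 h2
    exact le_antisymm h2 h1
  have hdz : deriv φ =ᶠ[𝓝 0] fun _ => 0 := by
    filter_upwards [hconst.eventuallyEq_nhds] with t ht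
    rw [ht.deriv_eq]; simp
  have : deriv (deriv φ) 0 = 0 := by rw [hdz.deriv_eq]; simp
  rw [hd2] at this
  linarith

lemma lap_quad {n : ℕ} (a b : ℝ) (z : E n) :
    Δ (fun y : E n => a * (b - ‖y‖ ^ 2)) z = -(2 * n * a) := by
  have h := lap_radial (n := n) (fun s : ℝ => a * (b - s)) (fun s _ => by fun_prop) z
  rw [h]
  have e1 : deriv (fun s : ℝ => a * (b - s)) = fun _ => -a := by
    ext s
    have : HasDerivAt (fun s : ℝ => a * (b - s)) (a * (-1)) s :=
      ((hasDerivAt_id s).const_sub b).const_mul a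
    rw [this.deriv]; ring
  rw [e1]; simp

/-- comparison principle -/
lemma comparison {n : ℕ} (hn : 0 < n) (C : Set (E n)) (hC : IsOpen C) (u U : E n → ℝ)
    (hU : Continuous U) (hUu : ∀ x ∈ C, U x = u x) (hU0 : ∀ x, x ∉ C → U x = 0)
    (hu : ContDiffOn ℝ 2 u C) {R0 : ℝ} (hsupp : ∀ x, R0 < ‖x‖ → U x = 0)
    (w : E n → ℝ) (hw : ContDiff ℝ 2 w) (hw0 : ∀ x, 0 ≤ w x) {s η : ℝ} (hs : 0 < s) (hη : 0 < η)
    (hdom : ∀ x ∈ C, s < U x → ‖x‖ ≤ R0 → -(Δ u x) - η ≤ -(Δ w x)) :
    ∀ x, U x ≤ w x + s + η / n * R0 ^ 2 := by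
  by_contra hcon
  push Not at hcon
  obtain ⟨x1, hx1⟩ := hcon
  have hnpos : (0:ℝ) < n := by exact_mod_cast hn
  set q : E n → ℝ := fun x => η / n * (R0 ^ 2 - ‖x‖ ^ 2) with hq
  have hqc : Continuous q := by fun_prop
  have hqle : ∀ x, q x ≤ η / n * R0 ^ 2 := by
    intro x
    have h1 : 0 ≤ η / n := by positivity
    have h2 : R0 ^ 2 - ‖x‖ ^ 2 ≤ R0 ^ 2 := by nlinarith [sq_nonneg ‖x‖]
    exact mul_le_mul_of_nonneg_left h2 h1
  have hR0sq : 0 ≤ η / n * R0 ^ 2 := by positivity
  have hball : ∀ x, 0 < U x → ‖x‖ ≤ R0 := by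
    intro x hx
    by_contra h
    push Not at h
    rw [hsupp x h] at hx
    exact lt_irrefl _ hx
  have hq0 : ∀ x, ‖x‖ ≤ R0 → 0 ≤ q x := by
    intro x hx
    have h1 : 0 ≤ η / n := by positivity
    have h2 : 0 ≤ R0 ^ 2 - ‖x‖ ^ 2 := by nlinarith [norm_nonneg x]
    exact mul_nonneg h1 h2
  set h : E n → ℝ := fun x => U x - s - w x - q x with hh
  have hhc : Continuous h := by
    have := hw.continuous
    fun_prop
  have hx1U : 0 < U x1 := by
    have := hw0 x1
    linarith
  have hne : (Metric.closedBall (0 : E n) R0).Nonempty := ⟨x1, by simpa using hball x1 hx1U⟩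
  obtain ⟨x0, hx0, hx0max⟩ := (isCompact_closedBall (0 : E n) R0).exists_isMaxOn hne hhc.continuousOn
  have hx1h : 0 < h x1 := by
    have := hqle x1
    simp only [hh]; linarith
  have hx0h : 0 < h x0 := by
    have h1 : h x1 ≤ h x0 := hx0max (by simpa using hball x1 hx1U)
    linarith
  have hx0n : ‖x0‖ ≤ R0 := by simpa using hx0
  have hx0U : s < U x0 := by
    have h1 := hq0 x0 hx0n
    have h2 := hw0 x0
    simp only [hh] at hx0h
    linarith
  have hx0C : x0 ∈ C := by
    by_contra hc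
    rw [hU0 x0 hc] at hx0U
    linarith
  have hloc : IsLocalMax h x0 := by
    have h1 : ∀ᶠ y in 𝓝 x0, 0 < U y := hU.continuousAt.eventually (lt_mem_nhds (by linarith))
    filter_upwards [h1] with y hy
    exact hx0max (by simpa using hball y hy)
  set h' : E n → ℝ := fun x => ((u x - s) - w x) - q x with hh'
  have hev : h =ᶠ[𝓝 x0] h' := by
    filter_upwards [hC.mem_nhds hx0C] with y hy
    simp only [hh, hh', hUu y hy]
  have hloc' : IsLocalMax h' x0 := hloc.congr hev
  have hua : ContDiffAt ℝ 2 u x0 := hu.contDiffAt (hC.mem_nhds hx0C)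
  have hqa : ContDiffAt ℝ 2 q x0 := by
    simp only [hq]
    exact contDiffAt_const.mul (contDiffAt_const.sub (contDiff_norm_sq ℝ).contDiffAt)
  have hsa : ContDiffAt ℝ 2 (fun x => u x - s) x0 := hua.sub contDiffAt_const
  have hha : ContDiffAt ℝ 2 h' x0 := (hsa.sub hw.contDiffAt).sub hqa
  have hle := lap_nonpos_of_isLocalMax hha hloc'
  have e0 : Δ (fun x => u x - s) x0 = Δ u x0 := by
    have := ContDiffAt.laplacian_sub hua (contDiffAt_const (c := s) (x := x0) (𝕜 := ℝ) (n := 2))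
    have h2 : (u - fun _ => s) = fun x => u x - s := rfl
    rw [h2] at this
    rw [this]
    have h3 : Δ (fun _ : E n => s) = 0 := laplacian_const
    rw [h3]; simp
  have e1 : Δ (fun x => (u x - s) - w x) x0 = Δ u x0 - Δ w x0 := by
    have := ContDiffAt.laplacian_sub hsa hw.contDiffAt
    have h2 : ((fun x => u x - s) - w) = fun x => (u x - s) - w x := rfl
    rw [h2] at this
    rw [this, e0]
  have e2 : Δ h' x0 = Δ u x0 - Δ w x0 - Δ q x0 := by
    have := ContDiffAt.laplacian_sub (hsa.sub hw.contDiffAt) hqa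
    have h2 : ((fun x => u x - s - w x) - q) = h' := rfl
    rw [h2] at this
    rw [this, e1]
  have e3 : Δ q x0 = -(2 * η) := by
    simp only [hq]
    rw [lap_quad]
    field_simp
  rw [e2, e3] at hle
  have := hdom x0 hx0C hx0U hx0n
  linarith

lemma critExp_gt {n : ℕ} (hn : 5 ≤ n) : 2 < critExp n := by
  have h5 : (5:ℝ) ≤ n := by exact_mod_cast hn
  unfold critExp
  rw [lt_div_iff₀ (by linarith)]
  linarith

lemma critExp_pos {n : ℕ} (hn : 5 ≤ n) : 0 < critExp n := by
  have := critExp_gt hn; linarith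

lemma Sstar_nonneg (n : ℕ) : 0 ≤ Sstar n := by
  apply Real.sInf_nonneg
  rintro q ⟨v, g, -, -, rfl⟩
  apply div_nonneg (integral_nonneg fun x => sq_nonneg _)
  apply Real.rpow_nonneg
  exact integral_nonneg fun x => Real.rpow_nonneg (abs_nonneg _) _

lemma Sstar_le {n : ℕ} {v g : E n → ℝ} (h : IsD2 n v g) (h0 : ¬ (v =ᵐ[volume] 0)) :
    Sstar n ≤ (∫ x, g x ^ 2) / (∫ x, |v x| ^ critExp n) ^ (2 / critExp n) := by
  apply csInf_le
  · refine ⟨0, ?_⟩
    rintro q ⟨v, g, -, -, rfl⟩
    apply div_nonneg (integral_nonneg fun x => sq_nonneg _)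
    apply Real.rpow_nonneg
    exact integral_nonneg fun x => Real.rpow_nonneg (abs_nonneg _) _
  · exact ⟨v, g, h, h0, rfl⟩

lemma isD2_of_test {n : ℕ} {w : E n → ℝ} (hw : ContDiff ℝ ∞ w) (hc : HasCompactSupport w) :
    IsD2 n w (Δ w) := by
  have h2 : ContDiff ℝ 2 w := hw.of_le two_le_inf
  refine ⟨hw.continuous.memLp_of_hasCompactSupport hc,
    (lap_cont h2).memLp_of_hasCompactSupport (lap_supp h2 hc), fun _ => w, fun _ => ⟨hw, hc⟩, ?_, ?_⟩
  · simp
  · simp

/-- the Sobolev inequality for test functions -/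
lemma sobolev_test {n : ℕ} (hn : 5 ≤ n) {w : E n → ℝ} (hw : ContDiff ℝ ∞ w)
    (hc : HasCompactSupport w) :
    Sstar n * (∫ x, |w x| ^ critExp n) ^ (2 / critExp n) ≤ ∫ x, (Δ w x) ^ 2 := by
  have hp := critExp_pos hn
  have hI : 0 ≤ ∫ x, |w x| ^ critExp n := integral_nonneg fun x => Real.rpow_nonneg (abs_nonneg _) _
  rcases hI.eq_or_lt with h0 | h0
  · rw [← h0, Real.zero_rpow (by positivity), mul_zero]
    exact integral_nonneg fun x => sq_nonneg _
  · have hne : ¬ (w =ᵐ[volume] 0) := by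
      intro h
      have : ∫ x, |w x| ^ critExp n = 0 := by
        rw [integral_eq_zero_of_ae]
        filter_upwards [h] with x hx
        rw [hx]; simp [Real.zero_rpow hp.ne']
      linarith
    have := Sstar_le (isD2_of_test hw hc) hne
    rwa [le_div_iff₀ (Real.rpow_pos_of_pos h0 _)] at this

lemma lap_contAt {n : ℕ} {f : E n → ℝ} {x : E n} (hf : ContDiffAt ℝ 2 f x) :
    ContinuousAt (Δ f) x := by
  have hev : (Δ f) =ᶠ[𝓝 x] fun z => ∑ i, fderiv ℝ (fun y => fderiv ℝ f y (bas n i)) z (bas n i) := by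
    have h1 : ∀ᶠ y in 𝓝 x, ContDiffAt ℝ 2 f y := hf.eventually (by simp)
    filter_upwards [h1] with y hy
    exact lap_eq f y hy
  rw [continuousAt_congr hev]
  apply tendsto_finsetSum
  intro i _
  have h1 : ContDiffAt ℝ 1 (fun z => fderiv ℝ f z (bas n i)) x :=
    (hf.fderiv_right (m := 1) (by norm_num)).clm_apply contDiffAt_const
  have h2 : ContDiffAt ℝ 0 (fderiv ℝ (fun z => fderiv ℝ f z (bas n i))) x :=
    h1.fderiv_right (m := 0) (by norm_num)
  exact (h2.continuousAt.clm_apply continuousAt_const)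

noncomputable def cut (s t : ℝ) : ℝ := min 1 (max 0 (2 * |t| / s - 1))

lemma cut_cont (s : ℝ) : Continuous (cut s) := by
  unfold cut; fun_prop

lemma cut_nonneg (s t : ℝ) : 0 ≤ cut s t := le_min zero_le_one (le_max_left _ _)

lemma cut_le_one (s t : ℝ) : cut s t ≤ 1 := min_le_left _ _

lemma cut_one {s t : ℝ} (hs : 0 < s) (h : s ≤ |t|) : cut s t = 1 := by
  unfold cut
  rw [min_eq_left]
  apply le_max_of_le_right
  have : 2 ≤ 2 * |t| / s := by rw [le_div_iff₀ hs]; linarith
  linarith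

lemma cut_zero {s t : ℝ} (hs : 0 < s) (h : |t| ≤ s / 2) : cut s t = 0 := by
  unfold cut
  have : 2 * |t| / s ≤ 1 := by rw [div_le_one hs]; linarith
  rw [max_eq_left (by linarith)]
  simp

/-- one scale of the comparison argument -/
lemma one_scale {n : ℕ} (hn : 3 ≤ n) (C : Set (E n)) (hC : IsOpen C) (u : E n → ℝ)
    (hu2 : ContDiffOn ℝ 2 u C) (hU : Continuous (C.indicator u))
    {R0 : ℝ} (hR0 : 0 < R0) (hsupp : ∀ x ∈ C, R0 < ‖x‖ → u x = 0)
    (hint : IntegrableOn (fun x => (Δ u x) ^ 2) C) {s : ℝ} (hs : 0 < s) :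
    ∃ w : E n → ℝ, ContDiff ℝ ∞ w ∧ HasCompactSupport w ∧ (∀ x, 0 ≤ w x) ∧
      (∀ x, |C.indicator u x| ≤ w x + 2 * s) ∧
      ∫ x, (Δ w x) ^ 2 ≤ (∫ x in C, (Δ u x) ^ 2) + s := by
  set U := C.indicator u with hUdef
  have hUu : ∀ x ∈ C, U x = u x := fun x hx => Set.indicator_of_mem hx u
  have hU0 : ∀ x, x ∉ C → U x = 0 := fun x hx => Set.indicator_of_notMem hx u
  have hUs : ∀ x, R0 < ‖x‖ → U x = 0 := by
    intro x hx
    by_cases h : x ∈ C
    · rw [hUu x h]; exact hsupp x h hx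
    · exact hU0 x h
  have hnpos : (1:ℝ) ≤ n := by exact_mod_cast (by omega : 1 ≤ n)
  set η := s / (1 + R0 ^ 2) with hη
  have hη0 : 0 < η := by positivity
  have hηs : η ≤ s := by
    rw [hη]; apply div_le_self hs.le; nlinarith [sq_nonneg R0]
  have hηR : η / n * R0 ^ 2 ≤ s := by
    have h1 : η / n ≤ η := div_le_self hη0.le hnpos
    have h2 : η * (1 + R0 ^ 2) = s := by rw [hη]; field_simp
    nlinarith [sq_nonneg R0]
  set g : E n → ℝ := C.indicator (fun x => |Δ u x| * cut s (U x)) with hg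
  have hgC : ∀ x ∈ C, g x = |Δ u x| * cut s (U x) := fun x hx => Set.indicator_of_mem hx _
  have hgn : ∀ x, x ∉ C → g x = 0 := fun x hx => Set.indicator_of_notMem hx _
  have hg0 : ∀ x, 0 ≤ g x := by
    intro x
    by_cases h : x ∈ C
    · rw [hgC x h]; exact mul_nonneg (abs_nonneg _) (cut_nonneg _ _)
    · rw [hgn x h]
  have hgc : Continuous g := by
    rw [continuous_iff_continuousAt]
    intro x
    by_cases h : x ∈ C
    · have h1 : g =ᶠ[𝓝 x] fun x => |Δ u x| * cut s (U x) := by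
        filter_upwards [hC.mem_nhds h] with y hy using hgC y hy
      rw [continuousAt_congr h1]
      have h2 : ContinuousAt (Δ u) x := lap_contAt (hu2.contDiffAt (hC.mem_nhds h))
      exact (h2.abs).mul ((cut_cont s).continuousAt.comp hU.continuousAt)
    · have h1 : g =ᶠ[𝓝 x] fun _ => 0 := by
        have h2 : ∀ᶠ y in 𝓝 x, |U y| < s / 2 := by
          have h3 : ContinuousAt (fun y => |U y|) x := hU.abs.continuousAt
          refine h3.eventually (gt_mem_nhds ?_)
          simp only [hU0 x h, abs_zero]; positivity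
        filter_upwards [h2] with y hy
        by_cases hyC : y ∈ C
        · rw [hgC y hyC, cut_zero hs hy.le, mul_zero]
        · exact hgn y hyC
      rw [continuousAt_congr h1]
      exact continuousAt_const
  have hgs : ∀ x, R0 < ‖x‖ → g x = 0 := by
    intro x hx
    by_cases h : x ∈ C
    · rw [hgC x h, hUs x hx, cut_zero hs (by simp; positivity), mul_zero]
    · exact hgn x h
  obtain ⟨w, hw, hwc, hw0, hwl, hwi⟩ := approx hn g hgc hg0 hR0 hgs hη0
  have hw2 : ContDiff ℝ 2 w := hw.of_le two_le_inf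
  refine ⟨w, hw, hwc, hw0, ?_, ?_⟩
  · have c1 := comparison (by omega) C hC u U hU hUu hU0 hu2 hUs w hw2 hw0 hs hη0
      (fun x hx hsx hxR => by
        have h1 := hwl x hxR
        rw [hgC x hx, cut_one hs (hsx.le.trans (le_abs_self _)), mul_one] at h1
        have h2 := neg_abs_le (Δ u x)
        linarith)
    have c2 := comparison (by omega) C hC (-u) (-U) hU.neg (fun x hx => by simp [hUu x hx])
      (fun x hx => by simp [hU0 x hx]) hu2.neg (R0 := R0) (fun x hx => by simp [hUs x hx])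
      w hw2 hw0 hs hη0
      (fun x hx hsx hxR => by
        have h1 := hwl x hxR
        have h3 : s ≤ |U x| := hsx.le.trans (neg_le_abs (U x))
        rw [hgC x hx, cut_one hs h3, mul_one] at h1
        have h2 := le_abs_self (Δ u x)
        rw [laplacian_neg]
        simp only [Pi.neg_apply, neg_neg]
        linarith)
    intro x
    rw [abs_le']
    have h1 := c1 x
    have h2 := c2 x
    simp only [Pi.neg_apply] at h2
    constructor <;> linarith
  · refine hwi.trans ?_
    have h1 : ∫ x, g x ^ 2 ≤ ∫ x in C, (Δ u x) ^ 2 := by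
      rw [← integral_indicator hC.measurableSet]
      have hgcs : HasCompactSupport g := by
        apply HasCompactSupport.intro (isCompact_closedBall (0 : E n) R0)
        intro x hx
        rw [Metric.mem_closedBall, dist_zero_right] at hx
        push Not at hx; exact hgs x hx
      apply integral_mono (sq_integrable hgc hgcs) (hint.integrable_indicator hC.measurableSet)
      intro x
      simp only
      by_cases h : x ∈ C
      · rw [hgC x h, Set.indicator_of_mem h, mul_pow, sq_abs]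
        have h3 : cut s (U x) ^ 2 ≤ 1 := by
          have := cut_nonneg s (U x)
          have := cut_le_one s (U x)
          nlinarith
        nlinarith [sq_nonneg (Δ u x)]
      · rw [hgn x h, Set.indicator_of_notMem h]; simp
    linarith

/-- the key inequality -/
lemma key_ineq {n : ℕ} (hn : 5 ≤ n) (C : Set (E n)) (hC : IsOpen C) (u : E n → ℝ)
    (hu2 : ContDiffOn ℝ 2 u C) (hU : Continuous (C.indicator u))
    {R0 : ℝ} (hR0 : 0 < R0) (hsupp : ∀ x ∈ C, R0 < ‖x‖ → u x = 0)
    (hint : IntegrableOn (fun x => (Δ u x) ^ 2) C) :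
    Sstar n * (∫ x in C, |u x| ^ critExp n) ^ (2 / critExp n) ≤ ∫ x in C, (Δ u x) ^ 2 := by
  set p := critExp n with hp
  have hp0 : 0 < p := critExp_pos hn
  set U := C.indicator u with hUdef
  have hUs : ∀ x, R0 < ‖x‖ → U x = 0 := by
    intro x hx
    by_cases h : x ∈ C
    · rw [hUdef, Set.indicator_of_mem h]; exact hsupp x h hx
    · rw [hUdef, Set.indicator_of_notMem h]
  have hUc : HasCompactSupport U := by
    apply HasCompactSupport.intro (isCompact_closedBall (0 : E n) R0)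
    intro x hx
    rw [Metric.mem_closedBall, dist_zero_right] at hx
    push Not at hx; exact hUs x hx
  have hIU : ∫ x in C, |u x| ^ p = ∫ x, |U x| ^ p := by
    rw [← integral_indicator hC.measurableSet]
    congr 1; ext x
    by_cases h : x ∈ C
    · rw [hUdef, Set.indicator_of_mem h, Set.indicator_of_mem h]
    · rw [hUdef, Set.indicator_of_notMem h, Set.indicator_of_notMem h]
      simp [Real.zero_rpow hp0.ne']
  rw [hIU]
  have hex : ∀ k : ℕ, ∃ w : E n → ℝ, ContDiff ℝ ∞ w ∧ HasCompactSupport w ∧ (∀ x, 0 ≤ w x) ∧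
      (∀ x, |U x| ≤ w x + 2 * (1 / ((k:ℝ) + 1))) ∧
      ∫ x, (Δ w x) ^ 2 ≤ (∫ x in C, (Δ u x) ^ 2) + 1 / ((k:ℝ) + 1) := fun k =>
    one_scale (by omega) C hC u hu2 hU hR0 hsupp hint (by positivity)
  choose w hw hwc hw0 hwU hwi using hex
  set s : ℕ → ℝ := fun k => 1 / ((k:ℝ) + 1) with hs
  have hs0 : Tendsto s atTop (𝓝 0) := tendsto_one_div_add_atTop_nhds_zero_nat
  have hspos : ∀ k, 0 < s k := fun k => by simp only [hs]; positivity
  set Fk : ℕ → E n → ℝ := fun k x => (max (|U x| - 2 * s k) 0) ^ p with hFk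
  have hUabs : Continuous fun x => |U x| := hU.abs
  have hUpi : Integrable (fun x => |U x| ^ p) := by
    refine (hUabs.rpow_const fun x => Or.inr hp0.le).integrable_of_hasCompactSupport ?_
    apply HasCompactSupport.intro hUc
    intro x hx
    rw [image_eq_zero_of_notMem_tsupport hx]; simp [Real.zero_rpow hp0.ne']
  have hFc : ∀ k, Continuous (Fk k) := fun k => by
    simp only [hFk]
    exact Continuous.rpow_const (by fun_prop) fun x => Or.inr hp0.le
  have hFle : ∀ k x, Fk k x ≤ |U x| ^ p := by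
    intro k x
    simp only [hFk]
    apply Real.rpow_le_rpow (le_max_right _ _) _ hp0.le
    apply max_le _ (abs_nonneg _)
    have := hspos k
    linarith
  have hF0 : ∀ k x, 0 ≤ Fk k x := fun k x => Real.rpow_nonneg (le_max_right _ _) _
  have hlim : Tendsto (fun k => ∫ x, Fk k x) atTop (𝓝 (∫ x, |U x| ^ p)) := by
    apply tendsto_integral_of_dominated_convergence (fun x => |U x| ^ p)
    · exact fun k => (hFc k).aestronglyMeasurable
    · exact hUpi
    · intro k
      refine Eventually.of_forall fun x => ?_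
      rw [Real.norm_eq_abs, abs_of_nonneg (hF0 k x)]
      exact hFle k x
    · refine Eventually.of_forall fun x => ?_
      simp only [hFk]
      have h1 : Tendsto (fun k => max (|U x| - 2 * s k) 0) atTop (𝓝 (max (|U x| - 2 * 0) 0)) :=
        (tendsto_const_nhds.sub (tendsto_const_nhds.mul hs0)).max tendsto_const_nhds
      rw [mul_zero, sub_zero, max_eq_left (abs_nonneg _)] at h1
      exact h1.rpow_const (Or.inr hp0.le)
  have hineq : ∀ k, Sstar n * (∫ x, Fk k x) ^ (2 / p) ≤ (∫ x in C, (Δ u x) ^ 2) + s k := by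
    intro k
    have h1 : ∫ x, Fk k x ≤ ∫ x, |w k x| ^ p := by
      apply integral_mono_of_nonneg (Eventually.of_forall (hF0 k))
      · refine ((hw k).continuous.abs.rpow_const fun x => Or.inr hp0.le).integrable_of_hasCompactSupport ?_
        apply HasCompactSupport.intro (hwc k)
        intro x hx
        rw [image_eq_zero_of_notMem_tsupport hx]; simp [Real.zero_rpow hp0.ne']
      · refine Eventually.of_forall fun x => ?_
        simp only [hFk]
        apply Real.rpow_le_rpow (le_max_right _ _) _ hp0.le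
        have := hwU k x
        apply max_le _ (abs_nonneg _)
        have := le_abs_self (w k x)
        simp only [hs]
        linarith
    have h2 := sobolev_test hn (hw k) (hwc k)
    have h3 : Sstar n * (∫ x, Fk k x) ^ (2 / p) ≤ Sstar n * (∫ x, |w k x| ^ p) ^ (2 / p) := by
      apply mul_le_mul_of_nonneg_left _ (Sstar_nonneg n)
      apply Real.rpow_le_rpow (integral_nonneg (hF0 k)) h1 (by positivity)
    exact h3.trans (h2.trans (hwi k))
  have hl1 : Tendsto (fun k => Sstar n * (∫ x, Fk k x) ^ (2 / p)) atTop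
      (𝓝 (Sstar n * (∫ x, |U x| ^ p) ^ (2 / p))) :=
    tendsto_const_nhds.mul (hlim.rpow_const (Or.inr (by positivity)))
  have hl2 : Tendsto (fun k => (∫ x in C, (Δ u x) ^ 2) + s k) atTop
      (𝓝 ((∫ x in C, (Δ u x) ^ 2) + 0)) := tendsto_const_nhds.add hs0
  rw [add_zero] at hl2
  exact le_of_tendsto_of_tendsto' hl1 hl2 hineq

/-- local boundedness of the Laplacian up to the closure -/
lemma lap_loc_bound {n : ℕ} {C : Set (E n)} (hC : IsOpen C) {u : E n → ℝ} {x : E n}
    (hx : x ∈ closure C) (hu : ContDiffWithinAt ℝ 2 u (closure C) x) :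
    ∃ V ∈ 𝓝 x, ∃ M : ℝ, ∀ y ∈ V ∩ C, |Δ u y| ≤ M := by
  obtain ⟨t, ht, p, hp⟩ := (contDiffWithinAt_nat (n := 2)).1 hu
  rw [Set.insert_eq_of_mem hx, mem_nhdsWithin] at ht
  obtain ⟨O, hO, hxO, hOt⟩ := ht
  have hxt : x ∈ t := hOt ⟨hxO, hx⟩
  have hcont : ContinuousOn (fun x => p x 2) t := hp.cont 2 le_rfl
  have hev : ∀ᶠ y in 𝓝[t] x, ‖p y 2‖ < ‖p x 2‖ + 1 := by
    have h1 : ContinuousWithinAt (fun y => ‖p y 2‖) t x := (hcont x hxt).norm
    exact h1.eventually (gt_mem_nhds (by linarith))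
  obtain ⟨O', hO', hxO', hOt'⟩ := mem_nhdsWithin.1 hev
  refine ⟨O ∩ O', (hO.inter hO').mem_nhds ⟨hxO, hxO'⟩, ∑ _i : Fin n, (‖p x 2‖ + 1), ?_⟩
  rintro y ⟨⟨hyO, hyO'⟩, hyC⟩
  have hyt : y ∈ t := hOt ⟨hyO, subset_closure hyC⟩
  have hlt : ‖p y 2‖ < ‖p x 2‖ + 1 := hOt' ⟨hyO', hyt⟩
  have hsub : O ∩ C ⊆ t := fun z hz => hOt ⟨hz.1, subset_closure hz.2⟩
  have hopen : IsOpen (O ∩ C) := hO.inter hC
  have heq : p y 2 = iteratedFDeriv ℝ 2 u y := by
    rw [(hp.mono hsub).eq_iteratedFDerivWithin_of_uniqueDiffOn (m := 2) le_rfl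
      hopen.uniqueDiffOn ⟨hyO, hyC⟩]
    exact iteratedFDerivWithin_of_isOpen 2 hopen ⟨hyO, hyC⟩
  rw [laplacian_eq_iteratedFDeriv_orthonormalBasis u (EuclideanSpace.basisFun (Fin n) ℝ)]
  simp only
  refine (Finset.abs_sum_le_sum_abs _ _).trans (Finset.sum_le_sum fun i _ => ?_)
  rw [← heq, ← Real.norm_eq_abs]
  refine ((p y 2).le_opNorm _).trans ?_
  rw [Fin.prod_univ_two]
  simp only [Matrix.cons_val_zero, Matrix.cons_val_one]
  have hb : ‖(EuclideanSpace.basisFun (Fin n) ℝ) i‖ = 1 := by simp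
  rw [hb]
  linarith

lemma lap_bound {n : ℕ} {C : Set (E n)} (hC : IsOpen C) {u : E n → ℝ}
    (hu : ContDiffOn ℝ 2 u (closure C)) (R0 : ℝ) :
    ∃ M : ℝ, ∀ y ∈ C ∩ Metric.closedBall (0 : E n) R0, |Δ u y| ≤ M := by
  have hK : IsCompact (closure C ∩ Metric.closedBall (0 : E n) R0) :=
    (isCompact_closedBall _ _).inter_left isClosed_closure
  have key : ∃ M : ℝ, ∀ y ∈ (closure C ∩ Metric.closedBall (0 : E n) R0) ∩ C, |Δ u y| ≤ M := by
    refine hK.induction_on (p := fun K => ∃ M : ℝ, ∀ y ∈ K ∩ C, |Δ u y| ≤ M) ?_ ?_ ?_ ?_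
    · exact ⟨0, by simp⟩
    · rintro s t hst ⟨M, hM⟩
      exact ⟨M, fun y hy => hM y ⟨hst hy.1, hy.2⟩⟩
    · rintro s t ⟨M, hM⟩ ⟨M', hM'⟩
      refine ⟨max M M', fun y hy => ?_⟩
      rcases hy.1 with h | h
      · exact (hM y ⟨h, hy.2⟩).trans (le_max_left _ _)
      · exact (hM' y ⟨h, hy.2⟩).trans (le_max_right _ _)
    · intro x hx
      obtain ⟨V, hV, M, hM⟩ := lap_loc_bound hC hx.1 (hu x hx.1)
      exact ⟨V, mem_nhdsWithin_of_mem_nhds hV, M, hM⟩
  obtain ⟨M, hM⟩ := key
  exact ⟨M, fun y hy => hM y ⟨⟨subset_closure hy.1, hy.2⟩, hy.1⟩⟩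

lemma lap_sq_integrableOn {n : ℕ} {C : Set (E n)} (hC : IsOpen C) {u : E n → ℝ}
    (hu : ContDiffOn ℝ 2 u (closure C)) {R0 : ℝ} (hsupp : ∀ x ∈ C, R0 < ‖x‖ → u x = 0) :
    IntegrableOn (fun x => (Δ u x) ^ 2) C := by
  obtain ⟨M, hM⟩ := lap_bound hC hu R0
  set B := Metric.closedBall (0 : E n) R0 with hB
  have hcont : ContinuousOn (Δ u) C := fun x hx =>
    (lap_contAt ((hu.mono subset_closure).contDiffAt (hC.mem_nhds hx))).continuousWithinAt
  have hun : C = (C ∩ B) ∪ (C \ B) := (Set.inter_union_sdiff C B).symm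
  rw [hun]
  apply IntegrableOn.union
  · have hBm : MeasurableSet B := Metric.isClosed_closedBall.measurableSet
    have hfin : volume (C ∩ B) < ⊤ :=
      (measure_mono Set.inter_subset_right).trans_lt measure_closedBall_lt_top
    have hmeas : AEStronglyMeasurable (fun x => (Δ u x) ^ 2) (volume.restrict (C ∩ B)) := by
      have h1 : ContinuousOn (fun x => (Δ u x) ^ 2) (C ∩ B) :=
        (hcont.mono Set.inter_subset_left).pow 2
      exact h1.aestronglyMeasurable (hC.measurableSet.inter hBm)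
    refine ⟨hmeas, .restrict_of_bounded (C := M ^ 2) hfin ?_⟩
    rw [ae_restrict_iff' (hC.measurableSet.inter hBm)]
    refine Eventually.of_forall fun y hy => ?_
    have h1 := hM y hy
    rw [Real.norm_eq_abs, abs_of_nonneg (sq_nonneg _), ← sq_abs]
    exact pow_le_pow_left₀ (abs_nonneg _) h1 2
  · have h0 : ∀ x ∈ C \ B, (Δ u x) ^ 2 = 0 := by
      rintro x ⟨hxC, hxB⟩
      have hopen : IsOpen (C \ B) := hC.sdiff Metric.isClosed_closedBall
      have hev : u =ᶠ[𝓝 x] fun _ => 0 := by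
        filter_upwards [hopen.mem_nhds ⟨hxC, hxB⟩] with y hy
        apply hsupp y hy.1
        have := hy.2
        rw [hB, Metric.mem_closedBall, dist_zero_right] at this
        push Not at this
        exact this
      have h1 := laplacian_congr_nhds hev
      have h2 : Δ (fun _ : E n => (0:ℝ)) = 0 := laplacian_const
      rw [h2] at h1
      rw [h1.eq_of_nhds]; simp
    exact (integrableOn_zero).congr_fun (fun x hx => (h0 x hx).symm)
      (hC.sdiff Metric.isClosed_closedBall).measurableSet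

lemma lower {n : ℕ} (hn : 5 ≤ n) {C : Set (E n)} (hC : IsOpen C) {u : E n → ℝ}
    (hu : u ∈ NavierClass n C) : Sstar n ≤ quot n C u := by
  obtain ⟨hu2, hfr, -, ⟨R, hR⟩, ⟨x0, hx0, hne⟩⟩ := hu
  set R0 := max R 1 with hR0def
  have hR0 : 0 < R0 := lt_of_lt_of_le one_pos (le_max_right _ _)
  have hsupp : ∀ x ∈ C, R0 < ‖x‖ → u x = 0 := fun x hx h =>
    hR x (subset_closure hx) (lt_of_le_of_lt (le_max_left _ _) h)
  have hU : Continuous (C.indicator u) := continuous_indicator hfr hu2.continuousOn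
  have hkey := key_ineq hn C hC u (hu2.mono subset_closure) hU hR0 hsupp
    (lap_sq_integrableOn hC hu2 hsupp)
  have hp := critExp_pos hn
  have hpos : 0 < ∫ x in C, |u x| ^ critExp n := by
    have e1 : ∫ x in C, |u x| ^ critExp n = ∫ x, |C.indicator u x| ^ critExp n := by
      rw [← integral_indicator hC.measurableSet]
      congr 1; ext x
      by_cases h : x ∈ C
      · rw [Set.indicator_of_mem h, Set.indicator_of_mem h]
      · rw [Set.indicator_of_notMem h, Set.indicator_of_notMem h]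
        simp [Real.zero_rpow hp.ne']
    rw [e1]
    apply Continuous.integral_pos_of_hasCompactSupport_nonneg_nonzero (x := x0)
    · exact hU.abs.rpow_const fun x => Or.inr hp.le
    · apply HasCompactSupport.intro (isCompact_closedBall (0 : E n) R0)
      intro x hx
      rw [Metric.mem_closedBall, dist_zero_right] at hx
      push Not at hx
      have : C.indicator u x = 0 := by
        by_cases h : x ∈ C
        · rw [Set.indicator_of_mem h]; exact hsupp x h hx
        · rw [Set.indicator_of_notMem h]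
      rw [this]; simp [Real.zero_rpow hp.ne']
    · intro x; exact Real.rpow_nonneg (abs_nonneg _) _
    · rw [Set.indicator_of_mem hx0]
      exact (Real.rpow_pos_of_pos (abs_pos.2 hne) _).ne'
  unfold quot
  rw [le_div_iff₀ (Real.rpow_pos_of_pos hpos _)]
  exact hkey

lemma lap_comp {n : ℕ} {f : E n → ℝ} (hf : ContDiff ℝ 2 f) (c : ℝ) (x0 x : E n) :
    Δ (fun y => f (c • (y - x0))) x = c ^ 2 * Δ f (c • (x - x0)) := by
  have hA : ∀ y : E n, HasFDerivAt (fun y : E n => c • (y - x0))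
      (c • ContinuousLinearMap.id ℝ (E n)) y := fun y =>
    ((hasFDerivAt_id y).sub_const x0).const_smul c
  have hAc : ContDiff ℝ 2 (fun y : E n => c • (y - x0)) := by fun_prop
  have hcomp : ContDiff ℝ 2 (fun y => f (c • (y - x0))) := hf.comp hAc
  rw [lap_eq _ _ hcomp.contDiffAt, lap_eq _ _ hf.contDiffAt, Finset.mul_sum]
  refine Finset.sum_congr rfl fun i _ => ?_
  have e1 : (fun y => fderiv ℝ (fun y => f (c • (y - x0))) y (bas n i))
      = fun y => c * (fun z => fderiv ℝ f z (bas n i)) (c • (y - x0)) := by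
    ext y
    have h1 : HasFDerivAt f (fderiv ℝ f (c • (y - x0))) (c • (y - x0)) :=
      (hf.differentiable (by norm_num) _).hasFDerivAt
    have h2 := h1.comp y (hA y)
    have h3 : fderiv ℝ (fun y => f (c • (y - x0))) y = _ := h2.fderiv
    rw [h3]
    simp
  rw [e1]
  have hg : ContDiff ℝ 1 (fun z => fderiv ℝ f z (bas n i)) :=
    (hf.fderiv_right (m := 1) (by norm_num)).clm_apply contDiff_const
  have h1 : HasFDerivAt (fun z => fderiv ℝ f z (bas n i))
      (fderiv ℝ (fun z => fderiv ℝ f z (bas n i)) (c • (x - x0))) (c • (x - x0)) :=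
    (hg.differentiable (by norm_num) _).hasFDerivAt
  have h2 := (h1.comp x (hA x)).const_mul c
  have h3 : fderiv ℝ (fun y => c * (fun z => fderiv ℝ f z (bas n i)) (c • (y - x0))) x = _ :=
    h2.fderiv
  rw [h3]
  simp
  ring

noncomputable def quotAll (n : ℕ) (u : E n → ℝ) : ℝ :=
  (∫ x, (Δ u x) ^ 2) / (∫ x, |u x| ^ critExp n) ^ (2 / critExp n)

/-- every test function can be moved inside the open set without changing the quotient -/
lemma move {n : ℕ} (hn : 5 ≤ n) {C : Set (E n)} (hC : IsOpen C) {x0 : E n} (hx0 : x0 ∈ C)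
    (hx0' : x0 ≠ 0) {φ : E n → ℝ} (hφ : ContDiff ℝ ∞ φ) (hc : HasCompactSupport φ)
    (hne : ∃ x, φ x ≠ 0) :
    ∃ u ∈ NavierClass n C, quot n C u = quotAll n φ := by
  obtain ⟨δ', hδ', hball⟩ := Metric.isOpen_iff.1 hC x0 hx0
  obtain ⟨M', hM'⟩ := hc.isBounded.exists_norm_le
  set M := max M' 0 with hM
  have hMz : ∀ z : E n, M < ‖z‖ → φ z = 0 := by
    intro z hz
    by_contra h
    have h1 : z ∈ tsupport φ := subset_tsupport φ h
    have := hM' z h1
    have h2 : M' ≤ M := le_max_left _ _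
    linarith
  have hM0 : 0 ≤ M := le_max_right _ _
  have hx0n : 0 < ‖x0‖ := norm_pos_iff.2 hx0'
  set δ := min δ' (‖x0‖ / 2) with hδdef
  have hδ : 0 < δ := lt_min hδ' (by positivity)
  set c := 2 * (M + 1) / δ with hcdef
  have hc0 : 0 < c := by positivity
  set u : E n → ℝ := fun x => φ (c • (x - x0)) with hu
  have hu0 : ∀ x, δ / 2 ≤ ‖x - x0‖ → u x = 0 := by
    intro x hx
    apply hMz
    rw [norm_smul, Real.norm_eq_abs, abs_of_pos hc0]
    have : c * (δ / 2) = M + 1 := by rw [hcdef]; field_simp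
    have h2 : c * (δ / 2) ≤ c * ‖x - x0‖ := by gcongr
    linarith
  have hun0 : ∀ x, x ∉ C → u x = 0 := by
    intro x hx
    apply hu0
    by_contra h
    push Not at h
    apply hx
    apply hball
    rw [Metric.mem_ball, dist_eq_norm]
    have : δ ≤ δ' := min_le_left _ _
    linarith
  have hφ2 : ContDiff ℝ 2 φ := hφ.of_le two_le_inf
  have huC : ContDiff ℝ 2 u := hφ2.comp (by fun_prop)
  refine ⟨u, ⟨huC.contDiffOn, ?_, ⟨‖x0‖ / 2, by positivity, ?_⟩, ⟨‖x0‖ + δ, ?_⟩, ?_⟩, ?_⟩
  · intro x hx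
    apply hun0
    rw [hC.frontier_eq] at hx
    exact hx.2
  · intro x _ hx
    apply hu0
    have h1 : ‖x0‖ - ‖x‖ ≤ ‖x0 - x‖ := norm_sub_norm_le x0 x
    rw [norm_sub_rev] at h1
    have h2 : δ ≤ ‖x0‖ / 2 := min_le_right _ _
    linarith
  · intro x _ hx
    apply hu0
    have h1 : ‖x‖ - ‖x0‖ ≤ ‖x - x0‖ := norm_sub_norm_le x x0
    linarith
  · obtain ⟨z, hz⟩ := hne
    have h1 : u (x0 + c⁻¹ • z) = φ z := by
      simp only [hu]
      congr 1
      rw [add_sub_cancel_left, smul_smul, mul_inv_cancel₀ hc0.ne', one_smul]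
    refine ⟨x0 + c⁻¹ • z, ?_, by rw [h1]; exact hz⟩
    by_contra h
    exact hz (by rw [← h1]; exact hun0 _ h)
  · -- the quotient
    have hp := critExp_pos hn
    have hlap : ∀ x, Δ u x = c ^ 2 * Δ φ (c • (x - x0)) := fun x => lap_comp hφ2 c x0 x
    have hlap0 : ∀ x, x ∉ C → Δ u x = 0 := by
      intro x hx
      have h0 : δ / 2 < ‖x - x0‖ := by
        by_contra h
        push Not at h
        apply hx
        apply hball
        rw [Metric.mem_ball, dist_eq_norm]
        have : δ ≤ δ' := min_le_left _ _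
        linarith
      have hev : u =ᶠ[𝓝 x] fun _ => 0 := by
        have h1 : ∀ᶠ y in 𝓝 x, δ / 2 < ‖y - x0‖ := by
          have : Continuous fun y : E n => ‖y - x0‖ := by fun_prop
          exact this.continuousAt.eventually (lt_mem_nhds h0)
        filter_upwards [h1] with y hy using hu0 y hy.le
      have h1 := laplacian_congr_nhds hev
      have h2 : Δ (fun _ : E n => (0:ℝ)) = 0 := laplacian_const
      rw [h2] at h1
      rw [h1.eq_of_nhds]; simp
    have hcov : ∀ f : E n → ℝ, ∫ x, f (c • (x - x0)) = (c ^ n)⁻¹ * ∫ x, f x := by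
      intro f
      rw [integral_sub_right_eq_self (fun x => f (c • x)) x0,
        Measure.integral_comp_smul volume f c, finrank_euclideanSpace_fin, smul_eq_mul,
        abs_of_pos (by positivity)]
    have I1 : ∫ x in C, (Δ u x) ^ 2 = c ^ 4 * ((c ^ n)⁻¹ * ∫ x, (Δ φ x) ^ 2) := by
      rw [setIntegral_eq_integral_of_forall_compl_eq_zero (fun x hx => by rw [hlap0 x hx]; simp)]
      rw [← hcov (fun z => (Δ φ z) ^ 2), ← integral_const_mul]
      congr 1; ext x
      rw [hlap]; ring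
    have I2 : ∫ x in C, |u x| ^ critExp n = (c ^ n)⁻¹ * ∫ x, |φ x| ^ critExp n := by
      rw [setIntegral_eq_integral_of_forall_compl_eq_zero
        (fun x hx => by rw [hun0 x hx]; simp [Real.zero_rpow hp.ne'])]
      rw [← hcov (fun z => |φ z| ^ critExp n)]
    unfold quot quotAll
    rw [I1, I2]
    have hI0 : 0 ≤ ∫ x, |φ x| ^ critExp n :=
      integral_nonneg fun x => Real.rpow_nonneg (abs_nonneg _) _
    rw [Real.mul_rpow (by positivity) hI0]
    have h5 : (5:ℝ) ≤ n := by exact_mod_cast hn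
    have e1 : ((c ^ n)⁻¹) ^ (2 / critExp n) = c ^ 4 * (c ^ n)⁻¹ := by
      rw [Real.inv_rpow (by positivity), ← Real.rpow_natCast c n, ← Real.rpow_natCast c 4,
        ← Real.rpow_mul hc0.le, ← Real.rpow_neg hc0.le, ← Real.rpow_neg hc0.le,
        ← Real.rpow_add hc0]
      congr 1
      unfold critExp
      have : (n:ℝ) - 4 ≠ 0 := by linarith
      have : (n:ℝ) ≠ 0 := by linarith
      push_cast
      field_simp
      ring
    rw [e1, ← mul_assoc]
    rw [mul_div_mul_left]
    positivity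

/-- approximation of elements of `D²` by test functions -/
lemma density {n : ℕ} (hn : 5 ≤ n) {v g : E n → ℝ} (h : IsD2 n v g) (h0 : ¬ (v =ᵐ[volume] 0))
    {ε : ℝ} (hε : 0 < ε) :
    ∃ φ : E n → ℝ, ContDiff ℝ ∞ φ ∧ HasCompactSupport φ ∧ (∃ x, φ x ≠ 0) ∧
      quotAll n φ < (∫ x, g x ^ 2) / (∫ x, |v x| ^ critExp n) ^ (2 / critExp n) + ε := by
  obtain ⟨hv, hg, φ, hφ, hlim1, hlim2⟩ := h
  have hp := critExp_pos hn
  have hp2 := critExp_gt hn
  set p := critExp n with hpdef
  set P : ENNReal := ENNReal.ofReal p with hP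
  have hP0 : P ≠ 0 := by rw [hP]; simpa using hp
  have hPt : P ≠ ⊤ := ENNReal.ofReal_ne_top
  have hPr : P.toReal = p := ENNReal.toReal_ofReal hp.le
  have : Fact (1 ≤ P) := ⟨by rw [hP, ENNReal.one_le_ofReal]; linarith⟩
  have : Fact ((1:ENNReal) ≤ 2) := ⟨by norm_num⟩
  -- norms as integrals
  have nP : ∀ f : E n → ℝ, MemLp f P volume →
      ((eLpNorm f P volume).toReal) ^ 2 = (∫ x, |f x| ^ p) ^ (2 / p) := by
    intro f hf
    rw [hf.eLpNorm_eq_integral_rpow_norm hP0 hPt, hPr]
    have hI : 0 ≤ ∫ x, |f x| ^ p := integral_nonneg fun x => Real.rpow_nonneg (abs_nonneg _) _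
    simp only [Real.norm_eq_abs]
    rw [ENNReal.toReal_ofReal (Real.rpow_nonneg hI _), ← Real.rpow_natCast,
      ← Real.rpow_mul hI]
    congr 1
    push_cast; ring
  have n2 : ∀ f : E n → ℝ, MemLp f 2 volume →
      ((eLpNorm f 2 volume).toReal) ^ 2 = ∫ x, f x ^ 2 := by
    intro f hf
    rw [hf.eLpNorm_eq_integral_rpow_norm (by norm_num) (by norm_num)]
    have e : (2:ENNReal).toReal = 2 := by simp
    rw [e]
    have e2 : (fun x => ‖f x‖ ^ (2:ℝ)) = fun x => f x ^ 2 := by
      ext x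
      rw [Real.norm_eq_abs, show (2:ℝ) = ((2:ℕ):ℝ) by norm_num, Real.rpow_natCast, sq_abs]
    rw [e2]
    have hI : 0 ≤ ∫ x, f x ^ 2 := integral_nonneg fun x => sq_nonneg _
    rw [ENNReal.toReal_ofReal (Real.rpow_nonneg hI _), ← Real.rpow_natCast,
      ← Real.rpow_mul hI]
    norm_num
  have hφ2 : ∀ k, ContDiff ℝ 2 (φ k) := fun k => (hφ k).1.of_le two_le_inf
  have hφP : ∀ k, MemLp (φ k) P volume := fun k =>
    (hφ k).1.continuous.memLp_of_hasCompactSupport (hφ k).2
  have hΔ2 : ∀ k, MemLp (Δ (φ k)) 2 volume := fun k =>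
    (lap_cont (hφ2 k)).memLp_of_hasCompactSupport (lap_supp (hφ2 k) (hφ k).2)
  have L1 : Tendsto (fun k => (eLpNorm (φ k) P volume).toReal) atTop
      (𝓝 (eLpNorm v P volume).toReal) := by
    have := ((Lp.tendsto_Lp_iff_tendsto_eLpNorm'' φ hφP v hv).2 hlim1).norm
    simpa only [Lp.norm_toLp] using this
  have L2 : Tendsto (fun k => (eLpNorm (Δ (φ k)) 2 volume).toReal) atTop
      (𝓝 (eLpNorm g 2 volume).toReal) := by
    have := ((Lp.tendsto_Lp_iff_tendsto_eLpNorm'' (fun k => Δ (φ k)) hΔ2 g hg).2 hlim2).norm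
    simpa only [Lp.norm_toLp] using this
  have hvpos : 0 < (eLpNorm v P volume).toReal := by
    apply ENNReal.toReal_pos
    · rw [Ne, eLpNorm_eq_zero_iff hv.1 hP0]; exact h0
    · exact hv.2.ne
  have hquot : ∀ k, quotAll n (φ k)
      = ((eLpNorm (Δ (φ k)) 2 volume).toReal) ^ 2 / ((eLpNorm (φ k) P volume).toReal) ^ 2 := by
    intro k
    rw [n2 _ (hΔ2 k), nP _ (hφP k)]
    rfl
  have hlim : Tendsto (fun k => quotAll n (φ k)) atTop
      (𝓝 (((eLpNorm g 2 volume).toReal) ^ 2 / ((eLpNorm v P volume).toReal) ^ 2)) := by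
    simp only [hquot]
    exact (L2.pow 2).div (L1.pow 2) (by positivity)
  rw [n2 g hg, nP v hv] at hlim
  have ev1 := hlim.eventually (gt_mem_nhds (lt_add_of_pos_right _ hε))
  have ev2 := L1.eventually (lt_mem_nhds hvpos)
  obtain ⟨k, hk1, hk2⟩ := (ev1.and ev2).exists
  refine ⟨φ k, (hφ k).1, (hφ k).2, ?_, hk1⟩
  by_contra hcon
  push Not at hcon
  have : φ k = 0 := by ext x; exact hcon x
  rw [this] at hk2
  simp at hk2

lemma cone_isOpen {n : ℕ} {S : Set (E n)}
    (hS : ∃ O : Set (E n), IsOpen O ∧ S = O ∩ Metric.sphere (0 : E n) 1) : IsOpen (cone S) := by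
  obtain ⟨O, hO, rfl⟩ := hS
  have he : cone (O ∩ Metric.sphere (0 : E n) 1)
      = {x : E n | x ≠ 0} ∩ (fun x : E n => ‖x‖⁻¹ • x) ⁻¹' O := by
    ext x
    constructor
    · rintro ⟨r, hr, σ, ⟨hσO, hσ⟩, rfl⟩
      have hσ1 : ‖σ‖ = 1 := by simpa using hσ
      have hσ0 : σ ≠ 0 := by
        intro h; rw [h] at hσ1; simp at hσ1
      refine ⟨smul_ne_zero hr.ne' hσ0, ?_⟩
      simp only [Set.mem_preimage]
      rw [norm_smul, hσ1, Real.norm_eq_abs, abs_of_pos hr, mul_one, smul_smul,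
        inv_mul_cancel₀ hr.ne', one_smul]
      exact hσO
    · rintro ⟨hx, hxO⟩
      have hx' : 0 < ‖x‖ := norm_pos_iff.2 hx
      refine ⟨‖x‖, hx', ‖x‖⁻¹ • x, ⟨hxO, ?_⟩, ?_⟩
      · rw [mem_sphere_zero_iff_norm, norm_smul, norm_inv, norm_norm, inv_mul_cancel₀ hx'.ne']
      · rw [smul_smul, mul_inv_cancel₀ hx'.ne', one_smul]
  rw [he]
  have hopen : IsOpen {x : E n | x ≠ 0} := isOpen_ne
  apply ContinuousOn.isOpen_inter_preimage _ hopen hO
  intro x hx
  apply ContinuousAt.continuousWithinAt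
  have hx' : ‖x‖ ≠ 0 := norm_ne_zero_iff.2 hx
  exact (continuousAt_id.norm.inv₀ hx').smul continuousAt_id

lemma exists_test {n : ℕ} : ∃ φ : E n → ℝ, ContDiff ℝ ∞ φ ∧ HasCompactSupport φ ∧ ∃ x, φ x ≠ 0 := by
  let f : ContDiffBump (0 : E n) := ⟨1, 2, by norm_num, by norm_num⟩
  refine ⟨f, f.contDiff, f.hasCompactSupport, 0, ?_⟩
  rw [f.one_of_mem_closedBall (by simp [f])]
  norm_num

/-- **Main theorem.** For every `n ≥ 5` and every nonempty relatively open subset `S` of the
unit sphere of `ℝⁿ` (in particular every domain of class `C²`, proper or not) the Navier-type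
critical biharmonic Sobolev constant of the cone over `S` equals the whole-space constant. -/
theorem result (n : ℕ) (hn : 5 ≤ n) (S : Set (E n)) (hne : S.Nonempty)
    (hS : ∃ O : Set (E n), IsOpen O ∧ S = O ∩ Metric.sphere (0 : E n) 1) :
    navierConst n (cone S) = Sstar n := by
  have hC : IsOpen (cone S) := cone_isOpen hS
  obtain ⟨σ, hσ⟩ := hne
  have hσC : σ ∈ cone S := ⟨1, one_pos, σ, hσ, by simp⟩
  have hσ1 : ‖σ‖ = 1 := by
    obtain ⟨O, hO, rfl⟩ := hS
    simpa using hσ.2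
  have hσ0 : σ ≠ 0 := by
    intro h; rw [h] at hσ1; simp at hσ1
  obtain ⟨φ0, hφ0, hφ0c, hφ0n⟩ := exists_test (n := n)
  apply le_antisymm
  · -- upper bound
    have hlow : ∀ q ∈ quot n (cone S) '' NavierClass n (cone S), 0 ≤ q := by
      rintro q ⟨u, -, rfl⟩
      apply div_nonneg (integral_nonneg fun x => sq_nonneg _)
      apply Real.rpow_nonneg
      exact integral_nonneg fun x => Real.rpow_nonneg (abs_nonneg _) _
    apply le_csInf
    · obtain ⟨x, hx⟩ := hφ0n
      refine ⟨_, φ0, Δ φ0, isD2_of_test hφ0 hφ0c, ?_, rfl⟩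
      intro h
      have : φ0 = 0 := (Continuous.ae_eq_iff_eq volume hφ0.continuous continuous_zero).1 h
      rw [this] at hx
      simp at hx
    · rintro q ⟨v, g, hvg, hv0, rfl⟩
      apply le_of_forall_pos_le_add
      intro ε hε
      obtain ⟨φ, hφ, hφc, hφn, hlt⟩ := density hn hvg hv0 hε
      obtain ⟨u, hu, hq⟩ := move hn hC hσC hσ0 hφ hφc hφn
      have h1 : navierConst n (cone S) ≤ quot n (cone S) u :=
        csInf_le ⟨0, hlow⟩ ⟨u, hu, rfl⟩
      rw [hq] at h1
      exact h1.trans hlt.le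
  · -- lower bound
    apply le_csInf
    · obtain ⟨u, hu, hq⟩ := move hn hC hσC hσ0 hφ0 hφ0c hφ0n
      exact ⟨_, u, hu, rfl⟩
    · rintro q ⟨u, hu, rfl⟩
      exact lower hn hC hu

end Pool.H49.MV.NavierCone
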